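import Pool.Agent.Lib.MP_ed7341_co.KM.Spec

section
/-
MP_ed7341_co, all m (helper55): assembly.
-/
set_option autoImplicit false

namespace MPed7341.KM

open Submodule Finset

/-- more functionals. -/
theorem extend_fun {F : Type} [Field F] {V : Type} [AddCommGroup V] [Module F V] {n1 n2 : ℕ}
    (h : n1 ≤ n2) (E : Finset V)
    (hf : ∃ f : Fin n1 → Module.Dual F V, ∀ x ∈ E, ∃ i, f i x ≠ 0) :
    ∃ f : Fin n2 → Module.Dual F V, ∀ x ∈ E, ∃ i, f i x ≠ 0 := by
  obtain ⟨f, hf⟩ := hf
  refine ⟨fun i => if h : (i : ℕ) < n1 then f ⟨i, h⟩ else 0, fun x hx => ?_⟩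
  obtain ⟨i, hi⟩ := hf x hx
  refine ⟨⟨i, lt_of_lt_of_le i.2 h⟩, ?_⟩
  have h1 : (i : ℕ) < n1 := i.2
  simp only [h1, dif_pos]
  exact hi

/-- at most `2 (4 m L q^2)^(m-3) - 1` functionals, `L = log_2 (q m) + 1`. -/
theorem assembly (hCOL : SpecCOL) (hNUM : SpecNUM) (F : Type) [Field F] [Fintype F]
    (m : ℕ) (hm : 3 ≤ m) (V : Type) [AddCommGroup V] [Module F V] [Module.Finite F V]
    (E : Finset V) (hK : ¬ HasK F m E) (h0 : (0 : V) ∉ E) :
    ∃ f : Fin (2 * (4 * m * (Nat.log 2 (Fintype.card F * m) + 1) * Fintype.card F ^ 2) ^ (m - 3)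
      - 1) → Module.Dual F V, ∀ x ∈ E, ∃ i, f i x ≠ 0 := by
  have hq : 2 ≤ Fintype.card F := Fintype.one_lt_card
  obtain ⟨h1, h2⟩ := hNUM (Fintype.card F) m hq hm
  obtain ⟨k, rfl⟩ : ∃ k, m = k + 3 := ⟨m - 3, by omega⟩
  have hk : k + 3 - 3 = k := by omega
  rw [hk] at h1 h2 ⊢
  exact extend_fun h2 E (hCOL F k _ h1 V E hK h0)

end MPed7341.KM
end

section
/-!
MP_ed7341_co, module CNT: pure counting of related pairs over the fibres of a map.
-/
set_option autoImplicit false

namespace MPed7341.KM

open Finset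

namespace CNTM

open Classical

variable {α β : Type} (S : Finset α) (π : α → β)

/-- fibre -/
noncomputable def fb (b : β) : Finset α := S.filter (fun s => π s = b)

theorem card_eq : S.card = ∑ b ∈ S.image π, (fb S π b).card :=
  Finset.card_eq_sum_card_image π S

theorem fb_pos {b : β} (hb : b ∈ S.image π) : 1 ≤ (fb S π b).card := by
  obtain ⟨s, hs, rfl⟩ := Finset.mem_image.1 hb
  exact Finset.card_pos.2 ⟨s, Finset.mem_filter.2 ⟨hs, rfl⟩⟩

theorem sum_sub : ∑ b ∈ S.image π, ((fb S π b).card - 1) = S.card - (S.image π).card := by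
  have h : ∑ b ∈ S.image π, ((fb S π b).card - 1) + (S.image π).card = S.card := by
    rw [card_eq S π, Finset.card_eq_sum_ones, ← Finset.sum_add_distrib]
    exact Finset.sum_congr rfl fun b hb => by have := fb_pos S π hb; omega
  omega

theorem icc_count (q n : ℕ) (hn : n ≤ q) :
    ∑ j ∈ Finset.Icc 2 q, (if j ≤ n then 1 else 0) = n - 1 := by
  rw [← Finset.card_filter]
  have : (Finset.Icc 2 q).filter (fun j => j ≤ n) = Finset.Icc 2 n := by
    ext j
    simp only [Finset.mem_filter, Finset.mem_Icc]
    omega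
  rw [this, Nat.card_Icc]
  omega

theorem second (q : ℕ) (hq : ∀ b, (fb S π b).card ≤ q) :
    ∑ j ∈ Finset.Icc 2 q, ((S.image π).filter (fun b => j ≤ (fb S π b).card)).card =
      S.card - (S.image π).card := by
  rw [← sum_sub S π]
  simp_rw [Finset.card_filter (fun b => _ ≤ (fb S π b).card)]
  rw [Finset.sum_comm]
  exact Finset.sum_congr rfl fun b _ => icc_count q _ (hq b)

variable (R : α → α → Prop)

/-- degree into a fibre -/
noncomputable def dg (b : β) (s : α) : ℕ := ((fb S π b).filter (fun t => R s t)).card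

/-- number of related pairs -/
noncomputable def ee (a b : β) : ℕ := ∑ s ∈ fb S π a, dg S π R b s

/-- excess -/
noncomputable def dd (a b : β) : ℕ := ∑ s ∈ fb S π a, (dg S π R b s - 1)

theorem sum_fb (f : α → ℕ) : ∑ s ∈ S, f s = ∑ a ∈ S.image π, ∑ s ∈ fb S π a, f s :=
  (Finset.sum_fiberwise_of_maps_to (fun _ hx => Finset.mem_image_of_mem π hx) f).symm

theorem dg_eq (b : β) (s : α) : dg S π R b s = ∑ t ∈ fb S π b, (if R s t then 1 else 0) :=
  Finset.card_filter _ _

theorem lhs_eq : ((S ×ˢ S).filter (fun p => R p.1 p.2)).card =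
    ∑ a ∈ S.image π, ∑ b ∈ S.image π, ee S π R a b := by
  rw [Finset.card_filter, Finset.sum_product,
    sum_fb S π (fun s => ∑ t ∈ S, if R s t then 1 else 0)]
  refine Finset.sum_congr rfl fun a _ => ?_
  unfold ee
  symm
  rw [Finset.sum_comm]
  refine Finset.sum_congr rfl fun s _ => ?_
  simp only [dg_eq]
  rw [← sum_fb S π (fun t => if R s t then 1 else 0)]

theorem ee_symm (hsym : ∀ s t, R s t → R t s) (a b : β) : ee S π R a b = ee S π R b a := by
  unfold ee
  simp only [dg_eq]
  rw [Finset.sum_comm]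
  refine Finset.sum_congr rfl fun s _ => Finset.sum_congr rfl fun t _ => ?_
  exact if_congr ⟨hsym _ _, hsym _ _⟩ rfl rfl

theorem ee_self (hirr : ∀ s t, R s t → s ≠ t) {q : ℕ} (hq : ∀ b, (fb S π b).card ≤ q) (a : β) :
    ee S π R a a ≤ q * ((fb S π a).card - 1) := by
  unfold ee
  have h : ∀ s ∈ fb S π a, dg S π R a s ≤ (fb S π a).card - 1 := by
    intro s hs
    rw [← Finset.card_erase_of_mem hs]
    refine Finset.card_le_card fun t ht => ?_
    rw [Finset.mem_filter] at ht
    exact Finset.mem_erase.2 ⟨(hirr s t ht.2).symm, ht.1⟩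
  refine (Finset.sum_le_card_nsmul _ _ _ h).trans ?_
  rw [smul_eq_mul]
  exact Nat.mul_le_mul_right _ (hq a)

theorem ee_le (a b : β) : ee S π R a b ≤ (fb S π a).card + dd S π R a b := by
  unfold ee dd
  rw [Finset.card_eq_sum_ones, ← Finset.sum_add_distrib]
  exact Finset.sum_le_sum fun s _ => by omega

theorem ee_zero {R' : β → β → Prop}
    (hR' : ∀ s ∈ S, ∀ t ∈ S, R s t → π s ≠ π t → R' (π s) (π t)) {a b : β} (hab : a ≠ b)
    (h : ¬ R' a b) : ee S π R a b = 0 := by
  unfold ee
  refine Finset.sum_eq_zero fun s hs => ?_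
  unfold dg
  rw [Finset.card_eq_zero, Finset.filter_eq_empty_iff]
  intro t ht hst
  unfold fb at hs ht
  rw [Finset.mem_filter] at hs ht
  have := hR' s hs.1 t ht.1 hst (by rw [hs.2, ht.2]; exact hab)
  rw [hs.2, ht.2] at this
  exact h this

theorem point {R' : β → β → Prop} (hsym : ∀ s t, R s t → R t s) (hirr : ∀ s t, R s t → s ≠ t)
    (hR' : ∀ s ∈ S, ∀ t ∈ S, R s t → π s ≠ π t → R' (π s) (π t))
    {q : ℕ} (hq : ∀ b, (fb S π b).card ≤ q) {a b : β} (ha : a ∈ S.image π)
    (hb : b ∈ S.image π) :
    ee S π R a b ≤ (if a = b then q * ((fb S π a).card - 1) else 0) +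
      (if R' a b then 1 else 0) +
      ∑ j ∈ Finset.Icc 2 q,
        (if (j ≤ (fb S π a).card ∧ j ≤ (fb S π b).card) ∧ R' a b then 1 else 0) +
      (if a = b then 0 else dd S π R a b) + (if a = b then 0 else dd S π R b a) := by
  by_cases hab : a = b
  · subst hab
    have := ee_self S π R hirr hq a
    simp only [if_true]
    omega
  · simp only [if_neg hab]
    by_cases hr : R' a b
    · have h1 := ee_le S π R a b
      have h2 := ee_le S π R b a
      rw [ee_symm S π R hsym b a] at h2
      have h3 : ∑ j ∈ Finset.Icc 2 q,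
          (if (j ≤ (fb S π a).card ∧ j ≤ (fb S π b).card) ∧ R' a b then 1 else 0) =
          min (fb S π a).card (fb S π b).card - 1 := by
        rw [← icc_count q (min (fb S π a).card (fb S π b).card)
          ((min_le_left _ _).trans (hq a))]
        refine Finset.sum_congr rfl fun j _ => ?_
        exact if_congr (by rw [le_min_iff]; tauto) rfl rfl
      rw [h3, if_pos hr]
      have h4 := fb_pos S π ha
      have h5 := fb_pos S π hb
      omega
    · rw [ee_zero S π R hR' hab hr]
      exact Nat.zero_le _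

theorem two_mul_pred (n : ℕ) : 2 * (n - 1) ≤ n * n - n := by
  rcases n with _ | n
  · simp
  · have : (n + 1) * (n + 1) - (n + 1) = n * (n + 1) := by
      have : (n + 1) * (n + 1) = n * (n + 1) + (n + 1) := by ring
      omega
    rw [this]
    rcases n with _ | n
    · simp
    · simp only [Nat.add_sub_cancel]
      nlinarith

theorem triple : 2 * ∑ a ∈ S.image π, ∑ b ∈ S.image π, (if a = b then 0 else dd S π R a b) ≤
    ((S ×ˢ S ×ˢ S).filter (fun p => R p.1 p.2.1 ∧ R p.1 p.2.2 ∧ p.2.1 ≠ p.2.2 ∧
        π p.2.1 = π p.2.2 ∧ π p.1 ≠ π p.2.1)).card := by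
  rw [Finset.card_filter, Finset.sum_product, sum_fb S π, Finset.mul_sum]
  refine Finset.sum_le_sum fun a _ => ?_
  have h1 : ∑ b ∈ S.image π, (if a = b then 0 else dd S π R a b) =
      ∑ s ∈ fb S π a, ∑ b ∈ S.image π, (if a = b then 0 else (dg S π R b s - 1)) := by
    rw [Finset.sum_comm]
    refine Finset.sum_congr rfl fun b _ => ?_
    split_ifs with h
    · simp
    · rfl
  rw [h1, Finset.mul_sum]
  refine Finset.sum_le_sum fun s hs => ?_
  have hs' : π s = a := (Finset.mem_filter.1 hs).2
  rw [← Finset.card_filter, Finset.card_eq_sum_card_fiberwise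
    (f := fun p : α × α => π p.1) (t := S.image π)
    (by
      intro p hp
      have hp' := (Finset.mem_filter.1 hp).1
      exact Finset.mem_image_of_mem π (Finset.mem_product.1 hp').1), Finset.mul_sum]
  refine Finset.sum_le_sum fun b _ => ?_
  split_ifs with h
  · exact Nat.zero_le _
  · refine (two_mul_pred _).trans ?_
    have h2 : (dg S π R b s * dg S π R b s - dg S π R b s) =
        (((fb S π b).filter (fun t => R s t)).offDiag).card := by
      rw [Finset.offDiag_card]
      rfl
    rw [h2]
    refine Finset.card_le_card ?_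
    rintro ⟨t, u⟩ htu
    rw [Finset.mem_offDiag] at htu
    obtain ⟨ht, hu, htu⟩ := htu
    unfold fb at ht hu
    simp only [Finset.mem_filter] at ht hu
    simp only [Finset.mem_filter, Finset.mem_product]
    refine ⟨⟨⟨ht.1.1, hu.1.1⟩, ht.2, hu.2, htu, ?_, ?_⟩, ht.1.2⟩
    · rw [ht.1.2, hu.1.2]
    · rw [hs', ht.1.2]
      exact h

end CNTM

open Classical in
theorem CNT : SpecCNT := by
  intro α β S π R R' q hsym hirr hR' hq
  refine ⟨?_, CNTM.second S π q hq⟩
  rw [CNTM.lhs_eq S π R]
  have h1 : ∑ a ∈ S.image π, ∑ b ∈ S.image π, CNTM.ee S π R a b ≤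
      ∑ a ∈ S.image π, ∑ b ∈ S.image π,
        ((if a = b then q * ((CNTM.fb S π a).card - 1) else 0) +
      (if R' a b then 1 else 0) +
      ∑ j ∈ Finset.Icc 2 q,
        (if (j ≤ (CNTM.fb S π a).card ∧ j ≤ (CNTM.fb S π b).card) ∧ R' a b then 1 else 0) +
      (if a = b then 0 else CNTM.dd S π R a b) + (if a = b then 0 else CNTM.dd S π R b a)) :=
    Finset.sum_le_sum fun a ha => Finset.sum_le_sum fun b hb =>
      CNTM.point S π R hsym hirr hR' hq ha hb
  refine h1.trans ?_
  simp only [Finset.sum_add_distrib]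
  have e1 : ∑ a ∈ S.image π, ∑ b ∈ S.image π,
      (if a = b then q * ((CNTM.fb S π a).card - 1) else 0) =
      q * (S.card - (S.image π).card) := by
    rw [← CNTM.sum_sub S π, Finset.mul_sum]
    refine Finset.sum_congr rfl fun a ha => ?_
    rw [Finset.sum_ite_eq, if_pos ha]
  have e2 : ∑ a ∈ S.image π, ∑ b ∈ S.image π, (if R' a b then 1 else 0) =
      ((S.image π ×ˢ S.image π).filter (fun p => R' p.1 p.2)).card := by
    rw [Finset.card_filter, Finset.sum_product]
  have e3 : ∑ a ∈ S.image π, ∑ b ∈ S.image π, ∑ j ∈ Finset.Icc 2 q,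
        (if (j ≤ (CNTM.fb S π a).card ∧ j ≤ (CNTM.fb S π b).card) ∧ R' a b then 1 else 0) =
      ∑ j ∈ Finset.Icc 2 q,
        (((S.image π).filter (fun b => j ≤ (S.filter (fun s => π s = b)).card) ×ˢ
          (S.image π).filter (fun b => j ≤ (S.filter (fun s => π s = b)).card)).filter
            (fun p => R' p.1 p.2)).card := by
    have : ∀ j, (((S.image π).filter (fun b => j ≤ (S.filter (fun s => π s = b)).card) ×ˢ
          (S.image π).filter (fun b => j ≤ (S.filter (fun s => π s = b)).card)).filter
            (fun p => R' p.1 p.2)).card = ∑ a ∈ S.image π, ∑ b ∈ S.image π,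
        (if (j ≤ (CNTM.fb S π a).card ∧ j ≤ (CNTM.fb S π b).card) ∧ R' a b then 1 else 0) := by
      intro j
      rw [← Finset.sum_product', ← Finset.card_filter]
      congr 1
      ext ⟨a, b⟩
      simp only [Finset.mem_filter, Finset.mem_product, CNTM.fb]
      tauto
    rw [Finset.sum_congr rfl fun j _ => this j]
    symm
    rw [Finset.sum_comm]
    refine Finset.sum_congr rfl fun a _ => ?_
    rw [Finset.sum_comm]
  have e4 : ∑ a ∈ S.image π, ∑ b ∈ S.image π, (if a = b then 0 else CNTM.dd S π R b a) =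
      ∑ a ∈ S.image π, ∑ b ∈ S.image π, (if a = b then 0 else CNTM.dd S π R a b) := by
    rw [Finset.sum_comm]
    exact Finset.sum_congr rfl fun a _ => Finset.sum_congr rfl fun b _ =>
      if_congr eq_comm rfl rfl
  have e5 := CNTM.triple S π R
  rw [e1, e2, e3, e4]
  omega

end MPed7341.KM
end

section
/-
MP_ed7341_co, all m, module COL (helper55): the functionals.
-/
set_option autoImplicit false

namespace MPed7341.KM

open Submodule Finset

namespace COLM

variable {F : Type} [Field F] {V : Type} [AddCommGroup V] [Module F V]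

/-- a maximal simple subset. -/
theorem exists_simple (E : Finset V) (h0 : (0 : V) ∉ E) :
    ∃ A ⊆ E, Simple F A ∧ ∀ x ∈ E, ∃ a ∈ A, ∃ c : F, x = c • a := by
  classical
  have hne : (E.powerset.filter (fun A => Simple F A)).Nonempty := by
    refine ⟨∅, ?_⟩
    rw [Finset.mem_filter]
    exact ⟨Finset.empty_mem_powerset _, by simp, by simp⟩
  obtain ⟨A, hA, hmax⟩ := Finset.exists_max_image _ (fun A => A.card) hne
  rw [Finset.mem_filter, Finset.mem_powerset] at hA
  refine ⟨A, hA.1, hA.2, ?_⟩
  intro x hx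
  by_contra hno
  push Not at hno
  have hx0 : x ≠ 0 := fun h => h0 (h ▸ hx)
  have hxA : x ∉ A := fun h => hno x h 1 (by simp)
  have hs : Simple F (insert x A) := by
    constructor
    · rw [Finset.mem_insert, not_or]
      exact ⟨hx0.symm, hA.2.1⟩
    · intro y hy z hz c hc
      rw [Finset.mem_insert] at hy hz
      rcases hy with rfl | hy
      · rcases hz with rfl | hz
        · rfl
        · exfalso
          have hc0 : c ≠ 0 := by
            rintro rfl
            rw [zero_smul] at hc
            exact hA.2.1 (hc ▸ hz)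
          apply hno z hz c⁻¹
          rw [hc, smul_smul, inv_mul_cancel₀ hc0, one_smul]
      · rcases hz with rfl | hz
        · exact absurd hc (hno y hy c)
        · exact hA.2.2 y hy z hz c hc
  have h1 := hmax (insert x A) (by
    rw [Finset.mem_filter, Finset.mem_powerset]
    exact ⟨Finset.insert_subset hx hA.1, hs⟩)
  rw [Finset.card_insert_of_notMem hxA] at h1
  omega

/-- a functional with value 1 on an independent set. -/
theorem exists_one {s : Set V} (hs : LinearIndepOn F id s) :
    ∃ f : Module.Dual F V, ∀ x ∈ s, f x = 1 := by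
  have h1 : LinearIndependent F (fun x : s => (x : V)) := hs
  let b := Module.Basis.extend hs
  refine ⟨b.constr F (fun _ => (1 : F)), fun x hx => ?_⟩
  have hx' : x ∈ hs.extend (Set.subset_univ s) := hs.subset_extend _ hx
  have h2 : b ⟨x, hx'⟩ = x := by
    simp [b]
  rw [← h2, Module.Basis.constr_basis]

end COLM

open COLM in
theorem COL (hMAP : SpecMAP) (hCOV : SpecCOV) : SpecCOL := by
  intro F _ _ k d hNu V _ _ _ E hK h0
  obtain ⟨A, hAE, hA, hrep⟩ := exists_simple (F := F) E h0
  obtain ⟨g, hg⟩ := hCOV F k d hNu V A hA (fun h => hK (hMAP.2 F V (k + 3) A E hAE h))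
  choose f hf using fun j => exists_one (hg j)
  refine ⟨f, fun x hx => ?_⟩
  obtain ⟨a, ha, c, hc⟩ := hrep x hx
  refine ⟨g a, ?_⟩
  rw [hc, map_smul, hf (g a) a ⟨ha, rfl⟩, smul_eq_mul, mul_one]
  rintro rfl
  rw [zero_smul] at hc
  exact h0 (hc ▸ hx)

end MPed7341.KM
end

section
/-
MP_ed7341_co, all m, module COV (helper55): a simple configuration without M(K_m)-minor is the
union of `2 q NN + 1` linearly independent sets.
-/
set_option autoImplicit false

namespace MPed7341.KM

open Submodule Finset

namespace COVM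

variable {F : Type} [Field F] {V : Type} [AddCommGroup V] [Module F V]

theorem cov_card [Module.Finite F V] {n : ℕ} {E : Finset V} (h : Cov F n E) :
    E.card ≤ n * rk F E := by
  classical
  obtain ⟨g, hg⟩ := h
  have h1 : E.card = ∑ j : Fin n, (E.filter (fun v => g v = j)).card :=
    Finset.card_eq_sum_card_fiberwise (fun v _ => Finset.mem_univ _)
  rw [h1]
  have h2 : ∀ j ∈ (Finset.univ : Finset (Fin n)), (E.filter (fun v => g v = j)).card ≤ rk F E := by
    intro j _
    have h3 := hg j
    have h4 : {v : V | v ∈ E ∧ g v = j} = ((E.filter (fun v => g v = j) : Finset V) : Set V) := by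
      ext v; simp
    rw [h4] at h3
    have h5 : Module.finrank F (span F ((E.filter (fun v => g v = j) : Finset V) : Set V)) =
        (E.filter (fun v => g v = j)).card := by
      have h6 := finrank_span_finset_eq_card (R := F) (s := E.filter (fun v => g v = j)) h3
      exact h6
    rw [← h5]
    unfold rk
    apply Submodule.finrank_mono
    apply Submodule.span_mono
    exact_mod_cast Finset.filter_subset _ _
  refine (Finset.sum_le_card_nsmul _ _ _ h2).trans ?_
  simp

end COVM

open COVM in
open Classical in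
theorem COV (hMAP : SpecMAP) (hTOP : SpecTOP) (hSHZ : SpecSHZ) (hLIF : SpecLIF) : SpecCOV := by
  intro F _ _ k d hNu
  have key : ∀ n : ℕ, ∀ (V : Type) [AddCommGroup V] [Module F V] [Module.Finite F V]
      (A : Finset V), rk F A = n → Simple F A → ¬ HasK F (k + 3) A →
      Cov F (2 * (Fintype.card F * NN (Fintype.card F) k d) + 1) A := by
    intro n
    induction n using Nat.strong_induction_on with
    | _ n ih =>
      intro V _ _ _ A hn hA hK
      rcases A.eq_empty_or_nonempty with rfl | hne
      · refine ⟨fun _ => 0, fun j => ?_⟩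
        have : {v : V | v ∈ (∅ : Finset V) ∧ (0 : Fin (2 * (Fintype.card F *
            NN (Fintype.card F) k d) + 1)) = j} = ∅ := by
          ext v; simp
        rw [this]
        exact linearIndepOn_empty F id
      · have hsh := hSHZ F V (k + 3) d (2 * (Fintype.card F * NN (Fintype.card F) k d) + 1) A hK
          hNu (by
            intro V' _ _ _ A' hA' hK' hr
            exact cov_card (ih (rk F A') (hn ▸ hr) V' A' rfl hA' hK'))
        obtain ⟨a, ha, hcard⟩ := hTOP F V k d A hA hne hK hsh
        have hker : LinearMap.ker (span F {a}).mkQ = span F {a} := Submodule.ker_mkQ _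
        have ha0 : a ≠ 0 := fun h => hA.1 (h ▸ ha)
        refine hLIF F V (V ⧸ span F {a}) (Fintype.card F * NN (Fintype.card F) k d) A a
          (span F {a}).mkQ hA ha hker (by convert hcard) ?_
        intro A' hA' hs'
        have hsub : A' ⊆ A.image (span F {a}).mkQ :=
          hA'.trans (Finset.image_subset_image (Finset.erase_subset _ _))
        have hK' : ¬ HasK F (k + 3) A' := by
          intro hK'
          apply hK
          refine hMAP.1 F V (V ⧸ span F {a}) (k + 3) (span F {a}).mkQ {a} A
            (by simpa using ha) (Submodule.mkQ_surjective _) (by simp) ?_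
          exact hMAP.2 F (V ⧸ span F {a}) (k + 3) A' _ hsub hK'
        have hr : rk F A' < rk F A := by
          unfold rk
          have h1 : span F (A' : Set (V ⧸ span F {a})) ≤
              (span F (A : Set V)).map (span F {a}).mkQ := by
            rw [Submodule.map_span]
            apply Submodule.span_mono
            have := Finset.coe_subset.mpr hsub
            rwa [Finset.coe_image] at this
          have h2 := Submodule.finrank_mono h1
          have h3 : Module.finrank F ((span F (A : Set V)).map (span F {a}).mkQ) <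
              Module.finrank F (span F (A : Set V)) := by
            have haP : a ∈ span F (A : Set V) := Submodule.subset_span ha
            have h4 := LinearMap.finrank_range_add_finrank_ker
              ((span F {a}).mkQ.domRestrict (span F (A : Set V)))
            have h5 : LinearMap.range ((span F {a}).mkQ.domRestrict (span F (A : Set V))) =
                (span F (A : Set V)).map (span F {a}).mkQ := LinearMap.range_domRestrict _ _
            rw [h5] at h4
            have h6 : 0 < Module.finrank F (LinearMap.ker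
                ((span F {a}).mkQ.domRestrict (span F (A : Set V)))) := by
              rw [Module.finrank_pos_iff_exists_ne_zero]
              refine ⟨⟨⟨a, haP⟩, ?_⟩, ?_⟩
              · rw [LinearMap.mem_ker, LinearMap.domRestrict_apply, ← LinearMap.mem_ker, hker]
                exact Submodule.mem_span_singleton_self a
              · intro h
                apply ha0
                have h7 := congrArg Subtype.val h
                have h8 := congrArg Subtype.val h7
                simpa using h8
            omega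
          omega
        exact ih (rk F A') (hn ▸ hr) _ A' rfl hs' hK'
  intro V _ _ _ A hA hK
  exact key _ V A rfl hA hK

end MPed7341.KM
end

section
/-
MP_ed7341_co, all m (helper55): module FRO, translation to the form of the frozen statement.
-/
set_option autoImplicit false

namespace MPed7341.KM

open Submodule Finset

namespace FROM

/-- linear independence is not changed by nonzero scalars. -/
theorem li_smul {F : Type} [Field F] {M : Type} [AddCommGroup M] [Module F M] {ι : Type}
    (u v : ι → M) (c : ι → F) (hc : ∀ i, c i ≠ 0) (h : ∀ i, v i = c i • u i) :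
    LinearIndependent F v ↔ LinearIndependent F u := by
  have hv : v = (fun i => Units.mk0 (c i) (hc i)) • u := by
    funext i
    rw [h i]
    rfl
  rw [hv]
  constructor
  · intro hl
    have h2 := hl.units_smul (fun i => (Units.mk0 (c i) (hc i))⁻¹)
    have h3 : ((fun i => (Units.mk0 (c i) (hc i))⁻¹) •
        ((fun i => Units.mk0 (c i) (hc i)) • u)) = u := by
      funext i
      exact inv_smul_smul (Units.mk0 (c i) (hc i)) (u i)
    rwa [h3] at h2
  · intro hl
    exact hl.units_smul _

/-- the linear map `x ↦ (∑ x_i w_i, ∑ x_i)`. -/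
noncomputable def phi {F : Type} [Field F] {M : Type} [AddCommGroup M] [Module F M] {m : ℕ}
    (w : Fin m → M) : (Fin m → F) →ₗ[F] M × F :=
  LinearMap.prod (Fintype.linearCombination F w)
    (Fintype.linearCombination F (fun _ : Fin m => (1 : F)))

theorem phi_apply {F : Type} [Field F] {M : Type} [AddCommGroup M] [Module F M] {m : ℕ}
    (w : Fin m → M) (x : Fin m → F) : phi w x = (∑ i, x i • w i, ∑ i, x i) := by
  simp [phi, Fintype.linearCombination_apply]

theorem phi_edge {F : Type} [Field F] {M : Type} [AddCommGroup M] [Module F M] {m : ℕ}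
    (w : Fin m → M) (i j : Fin m) :
    phi w ((Pi.single i (1 : F) : Fin m → F) - Pi.single j (1 : F)) = (w i - w j, 0) := by
  rw [phi_apply]
  ext
  · simp [sub_smul, Finset.sum_sub_distrib, Pi.single_apply]
  · simp

end FROM

open FROM in
theorem FRO : SpecFRO := by
  intro F _ m r S hno hK
  apply hno
  obtain ⟨C, w, hC, hI, hH⟩ := hK
  let W : Submodule F (Fin r → F) := span F (C : Set (Fin r → F))
  have hedge : ∀ e : {p : Fin m × Fin m // p.1 < p.2}, ∃ g ∈ S, ∃ c : F, c ≠ 0 ∧
      W.mkQ g = c • (W.mkQ (w e.1.1) - W.mkQ (w e.1.2)) := by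
    rintro ⟨⟨i, j⟩, hij⟩
    obtain ⟨g, hg, c, hc, hm⟩ := hH i j (ne_of_lt hij)
    refine ⟨g, hg, c, hc, ?_⟩
    simp only
    rw [← map_sub, ← map_smul, ← sub_eq_zero, ← map_sub, mkQ_apply, Quotient.mk_eq_zero]
    exact hm
  choose g hg c hc hgc using hedge
  refine ⟨C, g, hC, hg, ?_⟩
  intro T
  have hinj : Function.Injective (phi (F := F) (fun i => W.mkQ (w i))) := by
    rw [← LinearMap.ker_eq_bot, LinearMap.ker_eq_bot']
    intro x hx
    rw [phi_apply] at hx
    have hx1 := congrArg Prod.fst hx
    have hx2 := congrArg Prod.snd hx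
    simp only [Prod.fst_zero, Prod.snd_zero] at hx1 hx2
    have hm : ∑ i, x i • w i ∈ W := by
      rw [← Quotient.mk_eq_zero, ← mkQ_apply, map_sum]
      simpa using hx1
    exact hI x hx2 hm
  have step1 : LinearIndependent F (T.domRestrict (fun e => W.mkQ (g e))) ↔
      LinearIndependent F (fun e : T => W.mkQ (w e.1.1.1) - W.mkQ (w e.1.1.2)) :=
    li_smul _ _ (fun e : T => c e.1) (fun e => hc e.1) (fun e => hgc e.1)
  have step2 : LinearIndependent F (fun e : T => W.mkQ (w e.1.1.1) - W.mkQ (w e.1.1.2)) ↔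
      LinearIndependent F (fun e : T => (phi (F := F) (fun i => W.mkQ (w i)))
        ((Pi.single e.1.1.1 (1 : F) : Fin m → F) - Pi.single e.1.1.2 (1 : F))) := by
    have e1 : (fun e : T => (phi (F := F) (fun i => W.mkQ (w i)))
        ((Pi.single e.1.1.1 (1 : F) : Fin m → F) - Pi.single e.1.1.2 (1 : F))) =
        (LinearMap.inl F _ F) ∘ (fun e : T => W.mkQ (w e.1.1.1) - W.mkQ (w e.1.1.2)) := by
      funext e
      rw [phi_edge]
      rfl
    rw [e1]
    exact (LinearMap.linearIndependent_iff _
      (LinearMap.ker_eq_bot.mpr LinearMap.inl_injective)).symm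
  have step3 : LinearIndependent F (fun e : T => (phi (F := F) (fun i => W.mkQ (w i)))
        ((Pi.single e.1.1.1 (1 : F) : Fin m → F) - Pi.single e.1.1.2 (1 : F))) ↔
      LinearIndependent F (T.domRestrict
            (fun e => ((Pi.single e.1.1 (1 : F) : Fin m → F) -
              (Pi.single e.1.2 (1 : F) : Fin m → F)))) :=
    LinearMap.linearIndependent_iff _ (LinearMap.ker_eq_bot.mpr hinj)
  exact step1.trans (step2.trans step3)

end MPed7341.KM
end

section
/-!
MP_ed7341_co, module LIF: lifting a partition into independent sets over the contraction of one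
element.
-/
set_option autoImplicit false

namespace MPed7341.KM

open Submodule Finset

namespace LIFM

open Classical

/-- distinct representatives when every index forbids at most one element -/
theorem sdr {C E : Type} (P : Finset E) (bad : C → E → Prop) (J : Finset C) :
    (∀ j ∈ J, ∀ x ∈ P, ∀ y ∈ P, bad j x → bad j y → x = y) → J.card < P.card →
    ∃ f : C → E, (∀ j ∈ J, f j ∈ P ∧ ¬ bad j (f j)) ∧ Set.InjOn f (J : Set C) := by
  induction J using Finset.induction_on with
  | empty =>
    intro _ hc
    rw [Finset.card_empty] at hc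
    obtain ⟨e, he⟩ := Finset.card_pos.1 hc
    exact ⟨fun _ => e, by simp, by simp⟩
  | insert j J hj ih =>
    intro hbad hc
    rw [Finset.card_insert_of_notMem hj] at hc
    obtain ⟨f, hf, hinj⟩ := ih (fun i hi => hbad i (Finset.mem_insert_of_mem hi)) (by omega)
    have h2 : 1 < (P \ J.image f).card := by
      have h3 := Finset.le_card_sdiff (J.image f) P
      have h4 := Finset.card_image_le (s := J) (f := f)
      omega
    obtain ⟨x, hx, y, hy, hxy⟩ := Finset.one_lt_card.1 h2
    have h5 : ∃ z ∈ P \ J.image f, ¬ bad j z := by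
      by_contra hcon
      push Not at hcon
      exact hxy (hbad j (Finset.mem_insert_self _ _) x (Finset.mem_sdiff.1 hx).1 y
        (Finset.mem_sdiff.1 hy).1 (hcon x hx) (hcon y hy))
    obtain ⟨z, hz, hzb⟩ := h5
    have hne : ∀ i ∈ J, i ≠ j := fun i hi h => hj (h ▸ hi)
    refine ⟨Function.update f j z, ?_, ?_⟩
    · intro i hi
      rcases Finset.mem_insert.1 hi with rfl | hi
      · rw [Function.update_self]
        exact ⟨(Finset.mem_sdiff.1 hz).1, hzb⟩
      · rw [Function.update_of_ne (hne i hi)]
        exact hf i hi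
    · intro i hi k hk hik
      rw [Finset.mem_coe, Finset.mem_insert] at hi hk
      rcases hi with rfl | hi <;> rcases hk with rfl | hk
      · rfl
      · rw [Function.update_self, Function.update_of_ne (hne k hk)] at hik
        exact absurd (Finset.mem_image.2 ⟨k, hk, hik.symm⟩) (Finset.mem_sdiff.1 hz).2
      · rw [Function.update_self, Function.update_of_ne (hne i hi)] at hik
        exact absurd (Finset.mem_image.2 ⟨i, hi, hik⟩) (Finset.mem_sdiff.1 hz).2
      · rw [Function.update_of_ne (hne i hi), Function.update_of_ne (hne k hk)] at hik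
        exact hinj hi hk hik

theorem exists_inj {α β : Type} [Nonempty β] (S : Finset α) (N : Finset β)
    (h : S.card ≤ N.card) : ∃ ε : α → β, (∀ v ∈ S, ε v ∈ N) ∧ Set.InjOn ε (S : Set α) := by
  obtain ⟨em⟩ : Nonempty (↥S ↪ ↥N) :=
    Function.Embedding.nonempty_of_card_le (by simpa using h)
  let b : β := Classical.arbitrary β
  refine ⟨fun v => if h : v ∈ S then (em ⟨v, h⟩ : β) else b, ?_, ?_⟩
  · intro v hv
    simp only [dif_pos hv]
    exact (em ⟨v, hv⟩).2
  · intro u hu v hv huv
    rw [Finset.mem_coe] at hu hv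
    simp only [dif_pos hu, dif_pos hv] at huv
    exact congrArg Subtype.val (em.injective (Subtype.ext huv))

variable {F : Type} [Field F] {V V' : Type} [AddCommGroup V] [Module F V] [AddCommGroup V']
  [Module F V']

theorem ind (π : V →ₗ[F] V') (T : Set V) (ρ : V → V') (U : Set V') (hU : LinearIndepOn F id U)
    (h1 : ∀ v ∈ T, ρ v ∈ U) (h2 : Set.InjOn ρ T)
    (h3 : ∀ v ∈ T, ∃ s : F, s ≠ 0 ∧ π v = s • ρ v) : LinearIndepOn F π T := by
  have h4 : LinearIndepOn F ρ T := by
    have h5 : LinearIndepOn F id (ρ '' T) := hU.mono (by rintro _ ⟨v, hv, rfl⟩; exact h1 v hv)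
    exact h5.comp_of_image h2
  choose s hs0 hs using h3
  have h6 : LinearIndependent F (fun v : T => ρ v) := h4
  have h7 := h6.units_smul (fun v : T => Units.mk0 (s v v.2) (hs0 v v.2))
  have h8 : ((fun v : T => Units.mk0 (s v v.2) (hs0 v v.2)) • fun v : T => ρ v) =
      fun v : T => π v := by
    ext v
    simp only [Pi.smul_apply']
    rw [Units.smul_mk0, hs v v.2]
  rw [h8] at h7
  exact h7

theorem ind_a (π : V →ₗ[F] V') (a : V) (ha : a ≠ 0) (hπ : π a = 0) (T : Set V)
    (h : LinearIndepOn F π T) : LinearIndepOn F id T ∧ a ∉ span F T := by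
  refine ⟨LinearIndepOn.of_comp π (by simpa using h), fun hmem => ?_⟩
  rw [← Set.image_id T, Finsupp.mem_span_image_iff_linearCombination] at hmem
  obtain ⟨l, hl, hla⟩ := hmem
  have h1 : Finsupp.linearCombination F π l = 0 := by
    have h2 := congrArg π hla
    rw [hπ, Finsupp.linearCombination_apply, Finsupp.sum, map_sum] at h2
    rw [Finsupp.linearCombination_apply, Finsupp.sum, ← h2]
    refine Finset.sum_congr rfl fun v _ => ?_
    rw [map_smul, id]
  have h3 : l = 0 := (linearIndepOn_iff.1 h) l hl h1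
  rw [h3, map_zero] at hla
  exact ha hla.symm

theorem ind_insert {T T' : Set V} {y : V} (hT : LinearIndepOn F id T) (hy : y ∉ span F T)
    (h : T' ⊆ insert y T) : LinearIndepOn F id T' := by
  refine LinearIndepOn.mono ?_ h
  rw [linearIndepOn_id_insert (fun hmem => hy (subset_span hmem))]
  exact ⟨hT, hy⟩

end LIFM

theorem LIF : SpecLIF := by
  classical
  intro F _ V V' _ _ _ _ _ _ K A a π hS haA hker hcard hcov
  have h0 : (0 : V) ∉ A := hS.1
  have ha0 : a ≠ 0 := fun h => h0 (h ▸ haA)
  have hπa : π a = 0 := by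
    rw [← LinearMap.mem_ker, hker]
    exact mem_span_singleton_self a
  unfold ncl at hcard
  set B := A.erase a with hB
  set cls : V → Submodule F V := fun v => span F {a} ⊔ span F {v} with hcls
  have hBA : ∀ v ∈ B, v ∈ A ∧ v ≠ a := fun v hv =>
    ⟨Finset.mem_of_mem_erase hv, Finset.ne_of_mem_erase hv⟩
  have hna : ∀ v ∈ B, ∀ t : F, v ≠ t • a := fun v hv t h =>
    (hBA v hv).2 (hS.2 a haA v (hBA v hv).1 t h)
  have hmem : ∀ v, v ∈ cls v := fun v => mem_sup_right (mem_span_singleton_self v)
  have hamem : ∀ v, a ∈ cls v := fun v => mem_sup_left (mem_span_singleton_self a)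
  have R1 : ∀ u, ∀ v ∈ B, cls u = cls v → ∃ s t : F, s ≠ 0 ∧ v = s • u + t • a := by
    intro u v hv huv
    have h1 : v ∈ cls u := huv ▸ hmem v
    obtain ⟨x, hx, y, hy, hxy⟩ := mem_sup.1 h1
    obtain ⟨t, rfl⟩ := mem_span_singleton.1 hx
    obtain ⟨s, rfl⟩ := mem_span_singleton.1 hy
    refine ⟨s, t, ?_, by rw [← hxy, add_comm]⟩
    rintro rfl
    exact hna v hv t (by rw [← hxy, zero_smul, add_zero])
  have hπB : ∀ v ∈ B, π v ≠ 0 := by
    intro v hv h
    rw [← LinearMap.mem_ker, hker, mem_span_singleton] at h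
    obtain ⟨t, ht⟩ := h
    exact hna v hv t ht.symm
  have R2 : ∀ u, ∀ v ∈ B, ∀ s : F, π v = s • π u → cls u = cls v := by
    intro u v hv s h
    have hs : s ≠ 0 := by
      rintro rfl
      exact hπB v hv (by rw [h, zero_smul])
    have h1 : v - s • u ∈ LinearMap.ker π := by
      rw [LinearMap.mem_ker, map_sub, map_smul, h, sub_self]
    rw [hker, mem_span_singleton] at h1
    obtain ⟨t, ht⟩ := h1
    have h2 : v = s • u + t • a := by rw [ht]; abel
    refine le_antisymm (sup_le ?_ ?_) (sup_le ?_ ?_)
    · rw [span_singleton_le_iff_mem]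
      exact hamem v
    · rw [span_singleton_le_iff_mem]
      have h3 : u = s⁻¹ • (v - t • a) := by
        rw [h2, add_sub_cancel_right, smul_smul, inv_mul_cancel₀ hs, one_smul]
      rw [h3]
      exact (cls v).smul_mem _ ((cls v).sub_mem (hmem v) ((cls v).smul_mem _ (hamem v)))
    · rw [span_singleton_le_iff_mem]
      exact hamem u
    · rw [span_singleton_le_iff_mem, h2]
      exact (cls u).add_mem ((cls u).smul_mem _ (hmem u)) ((cls u).smul_mem _ (hamem u))
  have hrep : ∀ p ∈ B.image cls, ∃ v ∈ B, cls v = p := fun p hp => Finset.mem_image.1 hp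
  choose! r hrB hrc using hrep
  have hcl : ∀ v ∈ B, cls v ∈ B.image cls := fun v hv => Finset.mem_image_of_mem cls hv
  -- the contraction
  obtain ⟨g', hg'⟩ := hcov ((B.image cls).image (fun p => π (r p))) (by
      intro w hw
      obtain ⟨p, hp, rfl⟩ := Finset.mem_image.1 hw
      exact Finset.mem_image_of_mem π (hrB p hp)) (by
      constructor
      · intro h
        obtain ⟨p, hp, hp0⟩ := Finset.mem_image.1 h
        exact hπB _ (hrB p hp) hp0
      · intro x hx y hy c hc
        obtain ⟨p, hp, rfl⟩ := Finset.mem_image.1 hx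
        obtain ⟨p', hp', rfl⟩ := Finset.mem_image.1 hy
        have h1 := R2 (r p) (r p') (hrB p' hp') c hc
        rw [hrc p hp, hrc p' hp'] at h1
        rw [h1])
  set home : V → Fin (2 * K + 1) := fun v => g' (π (r (cls v))) with hhome
  have key : ∀ (T : Set V) (j : Fin (2 * K + 1)), (∀ v ∈ T, v ∈ B ∧ home v = j) →
      Set.InjOn cls T → LinearIndepOn F π T := by
    intro T j hT hinj
    refine LIFM.ind π T (fun v => π (r (cls v))) _ (hg' j) ?_ ?_ ?_
    · intro v hv
      exact ⟨Finset.mem_image_of_mem _ (hcl v (hT v hv).1), (hT v hv).2⟩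
    · intro u hu v hv huv
      have hu' := hcl u (hT u hu).1
      have hv' := hcl v (hT v hv).1
      have h1 := R2 (r (cls u)) (r (cls v)) (hrB _ hv') 1 (by rw [one_smul]; exact huv.symm)
      rw [hrc _ hu', hrc _ hv'] at h1
      exact hinj hu hv h1
    · intro v hv
      have hv' := hcl v (hT v hv).1
      obtain ⟨s, t, hs, h1⟩ := R1 (r (cls v)) v (hT v hv).1 (hrc _ hv')
      refine ⟨s, hs, ?_⟩
      conv_lhs => rw [h1]
      rw [map_add, map_smul, map_smul, hπa, smul_zero, add_zero]
  -- the extra elements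
  set X := B.filter (fun v => ¬ r (cls v) = v) with hX
  have hXB : ∀ v ∈ X, v ∈ B ∧ ¬ r (cls v) = v := fun v hv => Finset.mem_filter.1 hv
  have hXK : X.card ≤ K := by
    have h1 : (B.filter (fun v => r (cls v) = v)).card + X.card = B.card :=
      Finset.card_filter_add_card_filter_not (s := B) (fun v => r (cls v) = v)
    have h2 : (B.image cls).card ≤ (B.filter (fun v => r (cls v) = v)).card := by
      refine Finset.card_le_card_of_injOn r ?_ ?_
      · intro p hp
        refine Finset.mem_coe.2 (Finset.mem_filter.2 ⟨hrB p hp, ?_⟩)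
        rw [hrc p hp]
      · intro p hp p' hp' h
        rw [← hrc p hp, ← hrc p' hp', h]
    omega
  set N : Finset (Fin (2 * K + 1)) := Finset.univ \ X.image home with hN
  have hNc : (insert a X).card ≤ N.card := by
    have h1 := Finset.card_insert_le a X
    have h2 := Finset.card_image_le (s := X) (f := home)
    have h3 := Finset.le_card_sdiff (X.image home) (Finset.univ : Finset (Fin (2 * K + 1)))
    rw [Finset.card_univ, Fintype.card_fin] at h3
    change _ ≤ N.card at h3
    omega
  have haX : a ∉ X := fun h => (hBA a (hXB a h).1).2 rfl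
  obtain ⟨ε, hεN, hεinj⟩ := LIFM.exists_inj (insert a X) N hNc
  -- for a colour of `N` every class with this home colour is one element
  have hNI : ∀ j ∈ N, ∀ v ∈ B, home v = j → r (cls v) = v := by
    intro j hj v hv hvj
    by_contra hne
    exact (Finset.mem_sdiff.1 hj).2 (Finset.mem_image.2 ⟨v, Finset.mem_filter.2 ⟨hv, hne⟩, hvj⟩)
  have hI : ∀ j ∈ N, LinearIndepOn F id {v | v ∈ B ∧ home v = j} ∧
      a ∉ span F {v | v ∈ B ∧ home v = j} := by
    intro j hj
    refine LIFM.ind_a π a ha0 hπa _ (key _ j (fun v hv => hv) ?_)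
    intro u hu v hv huv
    rw [← hNI j hj u hu.1 hu.2, ← hNI j hj v hv.1 hv.2, huv]
  set P : Submodule F V → Finset V := fun p => B.filter (fun v => cls v = p) with hP
  set J : Submodule F V → Finset (Fin (2 * K + 1)) := fun p =>
    (X.filter (fun v => cls v = p)).image ε with hJ
  have hJN : ∀ p, ∀ j ∈ J p, j ∈ N := by
    intro p j hj
    obtain ⟨v, hv, rfl⟩ := Finset.mem_image.1 hj
    exact hεN v (Finset.mem_insert_of_mem (Finset.mem_filter.1 hv).1)
  have hPc : ∀ p ∈ B.image cls, (P p).card = (J p).card + 1 := by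
    intro p hp
    have h1 : P p = insert (r p) (X.filter (fun v => cls v = p)) := by
      ext v
      simp only [hP, hX, Finset.mem_insert, Finset.mem_filter]
      constructor
      · rintro ⟨hv, rfl⟩
        by_cases h : r (cls v) = v
        · exact Or.inl h.symm
        · exact Or.inr ⟨⟨hv, h⟩, rfl⟩
      · rintro (rfl | ⟨⟨hv, h⟩, h'⟩)
        · exact ⟨hrB p hp, hrc p hp⟩
        · exact ⟨hv, h'⟩
    have h2 : r p ∉ X.filter (fun v => cls v = p) := by
      intro h
      have h3 := (hXB _ (Finset.mem_filter.1 h).1).2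
      rw [hrc p hp] at h3
      exact h3 rfl
    rw [h1, Finset.card_insert_of_notMem h2, hJ]
    congr 1
    refine (Finset.card_image_of_injOn ?_).symm
    intro u hu v hv huv
    exact hεinj (Finset.mem_coe.2 (Finset.mem_insert_of_mem (Finset.mem_filter.1 hu).1))
      (Finset.mem_coe.2 (Finset.mem_insert_of_mem (Finset.mem_filter.1 hv).1)) huv
  have hf : ∀ p, ∃ f : Fin (2 * K + 1) → V, p ∈ B.image cls →
      (∀ j ∈ J p, f j ∈ P p ∧ ¬ f j ∈ span F {v | v ∈ B ∧ home v = j}) ∧
      Set.InjOn f (J p : Set (Fin (2 * K + 1))) := by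
    intro p
    by_cases hp : p ∈ B.image cls
    · obtain ⟨f, h1, h2⟩ := LIFM.sdr (P p)
        (fun j e => e ∈ span F {v | v ∈ B ∧ home v = j}) (J p) (by
          intro j hj x hx y hy hxb hyb
          have hx' := Finset.mem_filter.1 hx
          have hy' := Finset.mem_filter.1 hy
          obtain ⟨s, t, hs, h1⟩ := R1 x y hy'.1 (hx'.2.trans hy'.2.symm)
          by_cases ht : t = 0
          · rw [ht, zero_smul, add_zero] at h1
            exact (hS.2 x (hBA x hx'.1).1 y (hBA y hy'.1).1 s h1).symm
          · exfalso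
            apply (hI j (hJN p j hj)).2
            have h2 : a = t⁻¹ • (y - s • x) := by
              rw [h1, add_sub_cancel_left, smul_smul, inv_mul_cancel₀ ht, one_smul]
            rw [h2]
            exact Submodule.smul_mem _ _ (Submodule.sub_mem _ hyb (Submodule.smul_mem _ _ hxb)))
        (by rw [hPc p hp]; omega)
      exact ⟨f, fun _ => ⟨h1, h2⟩⟩
    · exact ⟨fun _ => 0, fun h => absurd h hp⟩
  choose f hf using hf
  -- the colouring
  refine ⟨fun v => if v = a then ε a else
    if h : ∃ j ∈ J (cls v), f (cls v) j = v then h.choose else home v, fun j => ?_⟩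
  have hAB : ∀ v ∈ A, v = a ∨ v ∈ B := by
    intro v hv
    by_cases h : v = a
    · exact Or.inl h
    · exact Or.inr (Finset.mem_erase.2 ⟨h, hv⟩)
  -- description of the colour class
  have hdesc : ∀ v ∈ {v | v ∈ A ∧ (if v = a then ε a else
      if h : ∃ j ∈ J (cls v), f (cls v) j = v then h.choose else home v) = j},
      (v = a ∧ j = ε a) ∨ (v ∈ B ∧ j ∈ J (cls v) ∧ f (cls v) j = v) ∨
      (v ∈ B ∧ home v = j ∧ ¬ ∃ i ∈ J (cls v), f (cls v) i = v) := by
    rintro v ⟨hvA, hv⟩
    rcases hAB v hvA with h | h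
    · left
      rw [if_pos h] at hv
      exact ⟨h, hv.symm⟩
    · right
      rw [if_neg (hBA v h).2] at hv
      split_ifs at hv with h1
      · left
        have h2 := h1.choose_spec
        rw [hv] at h2
        exact ⟨h, h2.1, h2.2⟩
      · right
        exact ⟨h, hv, h1⟩
  by_cases hj : j ∈ N
  · obtain ⟨hI1, hI2⟩ := hI j hj
    by_cases hja : j = ε a
    · refine LIFM.ind_insert hI1 hI2 ?_
      intro v hv
      rcases hdesc v hv with h | h | h
      · exact Or.inl h.1
      · exfalso
        obtain ⟨x, hx, hxj⟩ := Finset.mem_image.1 h.2.1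
        have hxX := (Finset.mem_filter.1 hx).1
        have h3 := hεinj (Finset.mem_coe.2 (Finset.mem_insert_of_mem hxX))
          (Finset.mem_coe.2 (Finset.mem_insert_self a X)) (hxj.trans hja)
        exact haX (h3 ▸ hxX)
      · exact Or.inr ⟨h.1, h.2.1⟩
    · by_cases hex : ∃ y ∈ B, j ∈ J (cls y) ∧ f (cls y) j = y
      · obtain ⟨y, hyB, hyJ, hyf⟩ := hex
        have hy2 := ((hf (cls y) (hcl y hyB)).1 j hyJ).2
        rw [hyf] at hy2
        refine LIFM.ind_insert hI1 hy2 ?_
        intro v hv
        rcases hdesc v hv with h | h | h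
        · exact absurd h.2 hja
        · left
          obtain ⟨x, hx, hxj⟩ := Finset.mem_image.1 h.2.1
          obtain ⟨x', hx', hxj'⟩ := Finset.mem_image.1 hyJ
          have hxX := Finset.mem_filter.1 hx
          have hxX' := Finset.mem_filter.1 hx'
          have h3 := hεinj (Finset.mem_coe.2 (Finset.mem_insert_of_mem hxX.1))
            (Finset.mem_coe.2 (Finset.mem_insert_of_mem hxX'.1)) (hxj.trans hxj'.symm)
          have h4 : cls v = cls y := by rw [← hxX.2, ← hxX'.2, h3]
          rw [← h.2.2, ← hyf, h4, hyf]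
        · exact Or.inr ⟨h.1, h.2.1⟩
      · refine LinearIndepOn.mono hI1 ?_
        intro v hv
        rcases hdesc v hv with h | h | h
        · exact absurd h.2 hja
        · exact absurd ⟨v, h⟩ hex
        · exact ⟨h.1, h.2.1⟩
  · refine (LIFM.ind_a π a ha0 hπa _ (key _ j ?_ ?_)).1
    · intro v hv
      rcases hdesc v hv with h | h | h
      · exact absurd (h.2 ▸ hεN a (Finset.mem_insert_self a X)) hj
      · exact absurd (hJN _ j h.2.1) hj
      · exact ⟨h.1, h.2.1⟩
    · intro u hu v hv huv
      have hone : ∀ v, v ∈ {v | v ∈ A ∧ (if v = a then ε a else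
          if h : ∃ j ∈ J (cls v), f (cls v) j = v then h.choose else home v) = j} →
          v ∈ B ∧ v ∉ (J (cls v)).image (f (cls v)) := by
        intro v hv
        rcases hdesc v hv with h | h | h
        · exact absurd (h.2 ▸ hεN a (Finset.mem_insert_self a X)) hj
        · exact absurd (hJN _ j h.2.1) hj
        · exact ⟨h.1, fun h' => h.2.2 (Finset.mem_image.1 h')⟩
      obtain ⟨huB, hu2⟩ := hone u hu
      obtain ⟨hvB, hv2⟩ := hone v hv
      rw [← huv] at hv2
      have hp := hcl u huB
      have h1 : (P (cls u) \ (J (cls u)).image (f (cls u))).card ≤ 1 := by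
        have h2 : (J (cls u)).image (f (cls u)) ⊆ P (cls u) := by
          intro w hw
          obtain ⟨i, hi, rfl⟩ := Finset.mem_image.1 hw
          exact ((hf (cls u) hp).1 i hi).1
        rw [Finset.card_sdiff_of_subset h2, Finset.card_image_of_injOn (hf (cls u) hp).2,
          hPc (cls u) hp]
        omega
      exact Finset.card_le_one.1 h1 u
        (Finset.mem_sdiff.2 ⟨Finset.mem_filter.2 ⟨huB, rfl⟩, hu2⟩) v
        (Finset.mem_sdiff.2 ⟨Finset.mem_filter.2 ⟨hvB, huv.symm⟩, hv2⟩)

end MPed7341.KM
end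

section
/-
MP_ed7341_co, all m, module LNK (helper55): few triangles.
-/
set_option autoImplicit false

namespace MPed7341.KM

open Submodule Finset

namespace LNKM

variable {F : Type} [Field F] {V : Type} [AddCommGroup V] [Module F V]

theorem hit_bot {E : Finset V} {v : V} (h : Hit (⊥ : Submodule F V) E v) (W : Submodule F V) :
    Hit W E v := by
  obtain ⟨e, he, c, hc, hm⟩ := h
  refine ⟨e, he, c, hc, ?_⟩
  rw [Submodule.mem_bot] at hm
  rw [hm]; exact W.zero_mem

theorem hit_neg {E : Finset V} {v : V} {W : Submodule F V} (h : Hit W E v) : Hit W E (-v) := by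
  obtain ⟨e, he, c, hc, hm⟩ := h
  exact ⟨e, he, -c, neg_ne_zero.mpr hc, by simpa using hm⟩

open Classical in
/-- the link of `s`. -/
noncomputable def lnk (F : Type) [Field F] {V : Type} [AddCommGroup V] [Module F V]
    (E S : Finset V) (s : V) : Finset V := (S.filter (fun t => Adj F E s t)).image (fun t => t - s)

open Classical in
theorem card_lnk (E S : Finset V) (s : V) :
    (lnk F E S s).card = (S.filter (fun t => Adj F E s t)).card :=
  Finset.card_image_of_injective _ (sub_left_injective)

theorem mem_lnk {E S : Finset V} {s x : V} : x ∈ lnk F E S s ↔ s + x ∈ S ∧ Adj F E s (s + x) := by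
  classical
  unfold lnk
  rw [Finset.mem_image]
  constructor
  · rintro ⟨t, ht, rfl⟩
    rw [Finset.mem_filter] at ht
    have : s + (t - s) = t := by abel
    rw [this]; exact ht
  · intro h
    exact ⟨s + x, Finset.mem_filter.mpr h, by abel⟩

end LNKM

open LNKM in
open Classical in
theorem LNK (hPSI : SpecPSI) : SpecLNK := by
  intro F _ _ V _ _ _ k d N hC E φ S hS hSh hRK
  by_contra hlt
  rw [not_le] at hlt
  -- a vertex with many pairs in its link
  have hsum1 : ((S ×ˢ S ×ˢ S).filter (fun p => Adj F E p.1 p.2.1 ∧ Adj F E p.1 p.2.2 ∧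
        Adj F E p.2.1 p.2.2 ∧ LinearIndependent F ![p.2.1 - p.1, p.2.2 - p.1])).card =
      ∑ s ∈ S, ((S ×ˢ S).filter (fun p => Adj F E s p.1 ∧ Adj F E s p.2 ∧
        Adj F E p.1 p.2 ∧ LinearIndependent F ![p.1 - s, p.2 - s])).card := by
    rw [Finset.card_filter, Finset.sum_product]
    refine Finset.sum_congr rfl (fun s _ => ?_)
    rw [Finset.card_filter]
  have hsum2 : ec F E S = ∑ s ∈ S, (S.filter (fun t => Adj F E s t)).card := by
    unfold ec
    rw [Finset.card_filter, Finset.sum_product]
    refine Finset.sum_congr rfl (fun s _ => ?_)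
    rw [Finset.card_filter]
  obtain ⟨s, hs, hts⟩ : ∃ s ∈ S, Fintype.card F * N * (S.filter (fun t => Adj F E s t)).card <
      ((S ×ˢ S).filter (fun p => Adj F E s p.1 ∧ Adj F E s p.2 ∧
        Adj F E p.1 p.2 ∧ LinearIndependent F ![p.1 - s, p.2 - s])).card := by
    rw [hsum1, hsum2, Finset.mul_sum] at hlt
    exact Finset.exists_lt_of_sum_lt hlt
  set X := lnk F E S s with hX
  have hXφ : ∀ x ∈ X, φ x = 0 := by
    intro x hx
    have h1 := hS _ (mem_lnk.mp hx).1
    rw [map_add, hS s hs] at h1
    simpa using h1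
  have hle : ((S ×ˢ S).filter (fun p => Adj F E s p.1 ∧ Adj F E s p.2 ∧
        Adj F E p.1 p.2 ∧ LinearIndependent F ![p.1 - s, p.2 - s])).card ≤
      ((X ×ˢ X).filter (fun p => LinearIndependent F ![p.1, p.2] ∧
        Hit (⊥ : Submodule F V) E (p.1 - p.2))).card := by
    apply Finset.card_le_card_of_injOn (fun p => (p.1 - s, p.2 - s))
    · intro p hp
      rw [Finset.mem_coe, Finset.mem_filter, Finset.mem_product] at hp
      obtain ⟨⟨h1, h2⟩, h3, h4, h5, h6⟩ := hp
      rw [Finset.mem_coe, Finset.mem_filter, Finset.mem_product]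
      have e1 : s + (p.1 - s) = p.1 := by abel
      have e2 : s + (p.2 - s) = p.2 := by abel
      refine ⟨⟨mem_lnk.mpr (by rw [e1]; exact ⟨h1, h3⟩), mem_lnk.mpr (by rw [e2]; exact ⟨h2, h4⟩)⟩,
        h6, ?_⟩
      have : p.1 - s - (p.2 - s) = p.1 - p.2 := by abel
      simpa only [this] using h5.2
    · intro p _ p' _ h
      simp only [Prod.mk.injEq, sub_left_inj] at h
      exact Prod.ext h.1 h.2
  have hbig : Fintype.card F * N * X.card < ((X ×ˢ X).filter (fun p =>
      LinearIndependent F ![p.1, p.2] ∧ Hit (⊥ : Submodule F V) E (p.1 - p.2))).card := by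
    rw [hX, card_lnk]
    exact lt_of_lt_of_le hts hle
  -- a functional
  obtain ⟨ψ, hψ⟩ : ∃ ψ : V →ₗ[F] F, N * (cut F ψ X).card <
      ((cut F ψ X ×ˢ cut F ψ X).filter (fun p => p.1 ≠ p.2 ∧
        Hit (⊥ : Submodule F V) E (p.1 - p.2))).card := by
    by_contra hno
    push Not at hno
    exact absurd (hPSI F V X (fun x y => Hit (⊥ : Submodule F V) E (x - y)) N hno)
      (not_le.mpr hbig)
  set E2 := E.filter (fun e => φ e = 0) with hE2
  set Y := cut F ψ X with hY
  have hYX : ∀ y ∈ Y, y ∈ X ∧ ψ y = 1 := by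
    intro y hy
    rw [hY, cut, Finset.mem_filter] at hy
    exact hy
  have hec : N * Y.card < ec F E2 Y := by
    refine lt_of_lt_of_le hψ ?_
    unfold ec
    apply Finset.card_le_card
    intro p hp
    rw [Finset.mem_filter, Finset.mem_product] at hp ⊢
    refine ⟨hp.1, hp.2.1, ?_⟩
    obtain ⟨e, he, c, hc, hm⟩ := hp.2.2
    refine ⟨e, ?_, c, hc, hm⟩
    rw [hE2, Finset.mem_filter]
    refine ⟨he, ?_⟩
    rw [Submodule.mem_bot, sub_eq_zero] at hm
    rw [hm, map_smul, map_sub, hXφ _ (hYX _ hp.1.1).1, hXφ _ (hYX _ hp.1.2).1]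
    simp
  have hShY : Sh F d E2 ψ Y := by
    intro C J hCE hJE hψ0 hdisj hli hcard v
    have hCE' : C ⊆ E := hCE.trans (Finset.filter_subset _ _)
    have hJE' : J ⊆ E := hJE.trans (Finset.filter_subset _ _)
    have hφ0 : ∀ x ∈ C ∪ J, φ x = 0 := by
      intro x hx
      rcases Finset.mem_union.mp hx with h | h
      · exact (Finset.mem_filter.mp (hCE h)).2
      · exact (Finset.mem_filter.mp (hJE h)).2
    refine lt_of_le_of_lt ?_ (hSh C J hCE' hJE' hφ0 hdisj hli hcard (v + s))
    apply Finset.card_le_card_of_injOn (fun z => z + (span F (C : Set V)).mkQ s)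
    · intro z hz
      rw [Finset.mem_coe, Finset.mem_image] at hz ⊢
      obtain ⟨x, hx, rfl⟩ := hz
      rw [Finset.mem_filter] at hx
      refine ⟨s + x, ?_, ?_⟩
      · rw [Finset.mem_filter]
        refine ⟨(mem_lnk.mp (hYX _ hx.1).1).1, ?_⟩
        have : s + x - (v + s) = x - v := by abel
        rw [this]; exact hx.2
      · rw [map_add, add_comm]
    · intro z _ z' _ h
      exact add_right_cancel h
  have hRKY : RK F (k + 2) E2 ψ Y := by
    by_contra hno
    exact absurd (hC E2 ψ Y (fun x hx => (hYX x hx).2) hShY hno) (not_le.mpr hec)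
  -- the clique in `S`
  obtain ⟨C, x, hCE, hCψ, hxY, hind, hhit⟩ := hRKY
  apply hRK
  have hCE' : C ⊆ E := hCE.trans (Finset.filter_subset _ _)
  have hCφ : ∀ c ∈ C, φ c = 0 := fun c hc => (Finset.mem_filter.mp (hCE hc)).2
  have hxS : ∀ i, s + x i ∈ S ∧ Adj F E s (s + x i) := fun i => mem_lnk.mp (hYX _ (hxY i)).1
  have hhit' : ∀ v, Hit (span F (C : Set V)) E2 v → Hit (span F (C : Set V)) E v := by
    rintro v ⟨e, he, c, hc, hm⟩
    exact ⟨e, (Finset.mem_filter.mp he).1, c, hc, hm⟩
  refine ⟨C, Fin.cons s (fun i => s + x i), hCE', hCφ, ?_, ?_, ?_⟩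
  · intro i
    refine Fin.cases ?_ ?_ i
    · simpa using hs
    · intro i; simpa using (hxS i).1
  · intro a ha
    have hφC : ∀ v ∈ span F (C : Set V), φ v = 0 := by
      intro v hv
      have : span F (C : Set V) ≤ LinearMap.ker φ := by
        rw [Submodule.span_le]
        intro c hc
        exact hCφ c hc
      exact this hv
    rw [Fin.sum_univ_succ] at ha
    simp only [Fin.cons_zero, Fin.cons_succ] at ha
    have h1 := hφC _ ha
    rw [map_add, map_smul, hS s hs, map_sum] at h1
    have h2 : ∀ i : Fin (k + 2), φ (a i.succ • (s + x i)) = a i.succ := by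
      intro i
      rw [map_smul, map_add, hS s hs, hXφ _ (hYX _ (hxY i)).1]
      simp
    simp only [h2] at h1
    have h3 : a 0 • s + ∑ i : Fin (k + 2), a i.succ • (s + x i) =
        ∑ i : Fin (k + 2), a i.succ • x i := by
      simp only [smul_add, Finset.sum_add_distrib, ← Finset.sum_smul]
      rw [← add_assoc, ← add_smul]
      have : a 0 + ∑ i : Fin (k + 2), a i.succ = 0 := by simpa using h1
      rw [this]; simp
    rw [h3] at ha
    have h4 := hind _ ha
    funext i
    refine Fin.cases ?_ ?_ i
    · have h5 : ∀ i : Fin (k + 2), a i.succ = 0 := fun i => congrFun h4 i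
      simpa [h5] using h1
    · intro i; exact congrFun h4 i
  · intro i j hij
    refine Fin.cases (motive := fun i => i ≠ j → Hit (span F (C : Set V)) E
      ((Fin.cons s (fun i => s + x i) : Fin (k + 3) → V) i -
        (Fin.cons s (fun i => s + x i) : Fin (k + 3) → V) j)) ?_ ?_ i hij
    · intro h0j
      obtain ⟨j', rfl⟩ := Fin.exists_succ_eq.mpr h0j.symm
      simp only [Fin.cons_zero, Fin.cons_succ]
      exact hit_bot (hxS j').2.2 _
    · intro i' hij'
      refine Fin.cases (motive := fun j => i'.succ ≠ j → Hit (span F (C : Set V)) E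
        ((Fin.cons s (fun i => s + x i) : Fin (k + 3) → V) i'.succ -
          (Fin.cons s (fun i => s + x i) : Fin (k + 3) → V) j)) ?_ ?_ j hij'
      · intro _
        simp only [Fin.cons_zero, Fin.cons_succ]
        have := hit_neg (hxS i').2.2
        rw [neg_sub] at this
        exact hit_bot this _
      · intro j' hne
        simp only [Fin.cons_succ]
        have e1 : s + x i' - (s + x j') = x i' - x j' := by abel
        rw [e1]
        exact hhit' _ (hhit i' j' (fun h => hne (by rw [h])))

end MPed7341.KM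
end

section
/-
MP_ed7341_co, all m, module MAIN (helper55): the pair count.
-/
set_option autoImplicit false

namespace MPed7341.KM

open Submodule Finset

namespace MAINM

variable {F : Type} [Field F] {V : Type} [AddCommGroup V] [Module F V]

theorem adj_symm {E : Finset V} {x y : V} (h : Adj F E x y) : Adj F E y x := by
  obtain ⟨hne, e, he, c, hc, hm⟩ := h
  refine ⟨hne.symm, e, he, -c, neg_ne_zero.mpr hc, ?_⟩
  have : e - (-c) • (y - x) = e - c • (x - y) := by
    rw [neg_smul, ← smul_neg, neg_sub]
  rw [this]; exact hm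

/-- `k = 0`: no adjacent pair. -/
theorem base_k {E S : Finset V} {φ : V →ₗ[F] F} (hS : ∀ s ∈ S, φ s = 1)
    (hR : ¬ RK F 2 E φ S) : ec F E S = 0 := by
  classical
  unfold ec
  rw [Finset.card_eq_zero, Finset.filter_eq_empty_iff]
  rintro ⟨x, y⟩ hp hadj
  rw [Finset.mem_product] at hp
  simp only at hp hadj
  apply hR
  refine ⟨∅, ![x, y], Finset.empty_subset _, by simp, ?_, ?_, ?_⟩
  · intro i
    fin_cases i
    · exact hp.1
    · exact hp.2
  · intro a ha
    rw [Fin.sum_univ_two] at ha
    simp only [Finset.coe_empty, Submodule.span_empty, Submodule.mem_bot,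
      Matrix.cons_val_zero, Matrix.cons_val_one] at ha
    have h1 := congrArg φ ha
    rw [map_add, map_smul, map_smul, hS x hp.1, hS y hp.2, map_zero] at h1
    simp only [smul_eq_mul, mul_one] at h1
    have h2 : a 1 = - a 0 := by linear_combination h1
    rw [h2, neg_smul, ← sub_eq_add_neg, ← smul_sub] at ha
    have h3 : a 0 = 0 := by
      rcases smul_eq_zero.mp ha with h | h
      · exact h
      · exact absurd (sub_eq_zero.mp h) hadj.1
    funext i
    fin_cases i
    · exact h3
    · simpa [h3] using h2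
  · intro i j hij
    have hb : ∀ v, Hit (⊥ : Submodule F V) E v → Hit (span F ((∅ : Finset V) : Set V)) E v := by
      rintro v ⟨e, he, c, hc, hm⟩
      refine ⟨e, he, c, hc, ?_⟩
      rw [Submodule.mem_bot] at hm
      rw [hm]; exact Submodule.zero_mem _
    fin_cases i <;> fin_cases j
    · exact absurd rfl hij
    · exact hb _ hadj.2
    · exact hb _ (adj_symm hadj).2
    · exact absurd rfl hij

/-- `d = 0`: no adjacent pair. -/
theorem base_d {E S : Finset V} {φ : V →ₗ[F] F} (hS : ∀ s ∈ S, φ s = 1)
    (hSh : Sh F 0 E φ S) : ec F E S = 0 := by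
  classical
  unfold ec
  rw [Finset.card_eq_zero, Finset.filter_eq_empty_iff]
  rintro ⟨x, y⟩ hp hadj
  rw [Finset.mem_product] at hp
  simp only at hp hadj
  obtain ⟨hne, e, he, c, hc, hm⟩ := hadj
  rw [Submodule.mem_bot, sub_eq_zero] at hm
  have he0 : e ≠ 0 := by
    rw [hm]
    exact smul_ne_zero hc (sub_ne_zero.mpr hne)
  have hφe : φ e = 0 := by
    rw [hm, map_smul, map_sub, hS x hp.1, hS y hp.2]; simp
  have h1 := hSh ∅ {e} (Finset.empty_subset _) (by simpa using he) (by simpa using hφe)
    (Finset.disjoint_empty_left _) (by simpa using he0) (by simp) y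
  rw [pow_one] at h1
  have h2 : ({(span F ((∅ : Finset V) : Set V)).mkQ x, (span F ((∅ : Finset V) : Set V)).mkQ y} :
      Finset (V ⧸ span F ((∅ : Finset V) : Set V))) ⊆
      ((S.filter (fun s => s - y ∈ span F ((∅ ∪ {e} : Finset V) : Set V))).image
      (span F ((∅ : Finset V) : Set V)).mkQ) := by
    intro z hz
    rw [Finset.mem_insert, Finset.mem_singleton] at hz
    rw [Finset.mem_image]
    rcases hz with rfl | rfl
    · refine ⟨x, Finset.mem_filter.mpr ⟨hp.1, ?_⟩, rfl⟩
      have : x - y = c⁻¹ • e := by rw [hm, smul_smul, inv_mul_cancel₀ hc, one_smul]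
      rw [this]
      exact Submodule.smul_mem _ _ (Submodule.subset_span (by simp))
    · refine ⟨y, Finset.mem_filter.mpr ⟨hp.2, ?_⟩, rfl⟩
      rw [sub_self]; exact Submodule.zero_mem _
  have h3 : (span F ((∅ : Finset V) : Set V)).mkQ x ≠ (span F ((∅ : Finset V) : Set V)).mkQ y := by
    intro h
    rw [← sub_eq_zero, ← map_sub, Submodule.mkQ_apply, Submodule.Quotient.mk_eq_zero] at h
    simp only [Finset.coe_empty, Submodule.span_empty, Submodule.mem_bot] at h
    exact hne (sub_eq_zero.mp h)
  have h4 := Finset.card_le_card h2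
  rw [Finset.card_pair h3] at h4
  omega

end MAINM

open MAINM in
open Classical in
theorem MAIN (hMPR : SpecMPR) (hSHA : SpecSHA) (hSHB : SpecSHB) (hCNT : SpecCNT)
    (hLNK : SpecLNK) (hSUM : SpecSUM) : SpecMAIN := by
  intro F _ _ k
  set q := Fintype.card F with hq
  induction k with
  | zero =>
    intro d V _ _ _ E φ S hS hSh hR
    rw [base_k hS hR]; exact Nat.zero_le _
  | succ k ihk =>
    intro d
    induction d with
    | zero =>
      intro V _ _ _ E φ S hS hSh hR
      rw [base_d hS hSh]; exact Nat.zero_le _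
    | succ d ihd =>
      -- strong induction on the dimension
      have key : ∀ n : ℕ, ∀ (V : Type) [AddCommGroup V] [Module F V] [Module.Finite F V]
          (E : Finset V) (φ : V →ₗ[F] F) (S : Finset V), Module.finrank F V = n →
          (∀ s ∈ S, φ s = 1) → Sh F (d + 1) E φ S → ¬ RK F (k + 1 + 2) E φ S →
          ec F E S ≤ NN q (k + 1) (d + 1) * S.card := by
        intro n
        induction n using Nat.strong_induction_on with
        | _ n ih =>
          intro V _ _ _ E φ S hn hS hSh hR
          by_contra hlt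
          rw [not_le] at hlt
          set N := NN q (k + 1) (d + 1) with hN
          set N1 := NN q (k + 1) d with hN1
          set N2 := NN q k (d + 1) with hN2
          have hNe : N = N1 + q + q ^ 2 * N2 := by
            rw [hN, NN]
          have hpos : 0 < ec F E S := lt_of_le_of_lt (Nat.zero_le _) hlt
          have hdir : ∀ h ∈ E, h ≠ 0 → φ h = 0 →
              q ^ 2 * N2 * (S.card - (S.image (span F {h}).mkQ).card) <
                ((S ×ˢ S ×ˢ S).filter (fun p => Adj F E p.1 p.2.1 ∧ Adj F E p.1 p.2.2 ∧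
                  p.2.1 ≠ p.2.2 ∧ p.2.1 - p.2.2 ∈ span F {h} ∧
                  p.1 - p.2.1 ∉ span F {h})).card := by
            intro h hE h0 hφ
            set W : Submodule F V := span F {h} with hW
            set π : V →ₗ[F] (V ⧸ W) := W.mkQ with hπ
            have hker : LinearMap.ker π = span F {h} := by rw [hπ, Submodule.ker_mkQ]
            have hWφ : W ≤ LinearMap.ker φ := by
              rw [hW, Submodule.span_singleton_le_iff_mem]; exact hφ
            set φ' : (V ⧸ W) →ₗ[F] F := W.liftQ φ hWφ with hφ'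
            have hcomp : φ' ∘ₗ π = φ := by
              rw [hφ', hπ]; exact W.liftQ_mkQ φ hWφ
            have hφ'1 : ∀ s, φ' (π s) = φ s := fun s => by
              rw [← hcomp]; rfl
            have hS' : ∀ s ∈ S.image π, φ' s = 1 := by
              intro s hs
              obtain ⟨t, ht, rfl⟩ := Finset.mem_image.mp hs
              rw [hφ'1]; exact hS t ht
            have hsurj : Function.Surjective π := Submodule.mkQ_surjective W
            have hShA : Sh F (d + 1) (E.image π) φ' (S.image π) :=
              hSHA F V (V ⧸ W) (d + 1) π h E S φ φ' hE h0 hφ hsurj hker hcomp hSh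
            have hRT : ∀ T ⊆ S.image π, ¬ RK F (k + 1 + 2) (E.image π) φ' T := by
              intro T hT hRK
              exact hR (hMPR F V (V ⧸ W) _ π h E S T φ φ' hE hφ hker hcomp hT hRK)
            have hfin : Module.finrank F (V ⧸ W) < n := by
              have h1 := Submodule.finrank_quotient_add_finrank W
              have h2 : Module.finrank F W = 1 := finrank_span_singleton h0
              omega
            have e1 : ec F (E.image π) (S.image π) ≤ N * (S.image π).card :=
              ih _ hfin (V ⧸ W) (E.image π) φ' (S.image π) rfl hS' hShA (hRT _ subset_rfl)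
            obtain ⟨c1, c2⟩ := hCNT V (V ⧸ W) S π (Adj F E) (Adj F (E.image π)) q
              (fun s t hst => adj_symm hst) (fun s t hst => hst.1)
              (by
                intro s _ t _ hst hne
                refine ⟨hne, ?_⟩
                obtain ⟨_, e, he, c, hc, hm⟩ := hst
                refine ⟨π e, Finset.mem_image_of_mem _ he, c, hc, ?_⟩
                rw [Submodule.mem_bot, sub_eq_zero] at hm ⊢
                rw [hm, map_smul, map_sub])
              (by
                intro b
                by_cases hb : (S.filter (fun s => π s = b)).Nonempty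
                · obtain ⟨s0, hs0⟩ := hb
                  have h1 : (S.filter (fun s => π s = b)) ⊆
                      (univ : Finset F).image (fun c => s0 + c • h) := by
                    intro s hs
                    rw [Finset.mem_filter] at hs hs0
                    have h2 : s - s0 ∈ span F {h} := by
                      rw [← hker, LinearMap.mem_ker, map_sub, hs.2, hs0.2, sub_self]
                    obtain ⟨c, hc⟩ := Submodule.mem_span_singleton.mp h2
                    rw [Finset.mem_image]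
                    exact ⟨c, Finset.mem_univ _, by rw [hc]; abel⟩
                  exact (Finset.card_le_card h1).trans
                    (Finset.card_image_le.trans (by rw [Finset.card_univ]))
                · rw [Finset.not_nonempty_iff_eq_empty.mp hb]; simp)
            -- the multiple classes
            have e2 : ∑ j ∈ Finset.Icc 2 q,
                (((S.image π).filter (fun b => j ≤ (S.filter (fun s => π s = b)).card) ×ˢ
                (S.image π).filter (fun b => j ≤ (S.filter (fun s => π s = b)).card)).filter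
                (fun p => Adj F (E.image π) p.1 p.2)).card ≤
                N1 * (S.card - (S.image π).card) := by
              rw [← c2, Finset.mul_sum]
              apply Finset.sum_le_sum
              intro j hj
              rw [Finset.mem_Icc] at hj
              set T := (S.image π).filter (fun b => j ≤ (S.filter (fun s => π s = b)).card) with hT
              have hTS : T ⊆ S.image π := Finset.filter_subset _ _
              have h1 : Sh F d (E.image π) φ' T :=
                hSHB F V (V ⧸ W) d π h E S T φ φ' hE h0 hφ hsurj hker hcomp hSh hTS (by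
                  intro c hc
                  exact hj.1.trans (Finset.mem_filter.mp hc).2)
              exact ihd (V ⧸ W) (E.image π) φ' T (fun s hs => hS' s (hTS hs)) h1 (hRT T hTS)
            have hle : (S.image π).card ≤ S.card := Finset.card_image_le
            have e3 : ec F E S ≤ N * (S.image π).card + q * (S.card - (S.image π).card) +
                N1 * (S.card - (S.image π).card) +
                ((S ×ˢ S ×ˢ S).filter (fun p => Adj F E p.1 p.2.1 ∧ Adj F E p.1 p.2.2 ∧
                  p.2.1 ≠ p.2.2 ∧ π p.2.1 = π p.2.2 ∧ π p.1 ≠ π p.2.1)).card := by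
              unfold ec
              unfold ec at e1
              refine c1.trans ?_
              gcongr
            have e4 : ((S ×ˢ S ×ˢ S).filter (fun p => Adj F E p.1 p.2.1 ∧ Adj F E p.1 p.2.2 ∧
                  p.2.1 ≠ p.2.2 ∧ π p.2.1 = π p.2.2 ∧ π p.1 ≠ π p.2.1)).card =
                ((S ×ˢ S ×ˢ S).filter (fun p => Adj F E p.1 p.2.1 ∧ Adj F E p.1 p.2.2 ∧
                  p.2.1 ≠ p.2.2 ∧ p.2.1 - p.2.2 ∈ span F {h} ∧
                  p.1 - p.2.1 ∉ span F {h})).card := by
              congr 1
              apply Finset.filter_congr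
              intro p _
              rw [← hker, LinearMap.mem_ker, LinearMap.mem_ker, map_sub, map_sub, sub_eq_zero,
                sub_eq_zero]
            rw [e4] at e3
            set T := ((S ×ˢ S ×ˢ S).filter (fun p => Adj F E p.1 p.2.1 ∧ Adj F E p.1 p.2.2 ∧
                  p.2.1 ≠ p.2.2 ∧ p.2.1 - p.2.2 ∈ span F {h} ∧
                  p.1 - p.2.1 ∉ span F {h})).card with hT
            obtain ⟨x, hx⟩ := Nat.exists_eq_add_of_le hle
            have hx' : S.card - (S.image π).card = x := by omega
            rw [hx'] at e3 ⊢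
            rw [hx] at hlt
            have e5 : N * ((S.image π).card + x) = N * (S.image π).card +
                (N1 * x + q * x + q ^ 2 * N2 * x) := by
              rw [mul_add]
              congr 1
              rw [hNe]; ring
            rw [e5] at hlt
            omega
          have hs := hSUM F V (q ^ 2 * N2) E φ S hS hdir hpos
          have hl := hLNK F V k (d + 1) N2 (fun E' ψ X hX hSX hRX =>
            ihk (d + 1) V E' ψ X hX hSX hRX) E φ S hS hSh hR
          have h1 : q ^ 2 * N2 * ec F E S = q * (q * N2 * ec F E S) := by ring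
          rw [h1] at hs
          exact absurd hs (not_lt.mpr (Nat.mul_le_mul_left q hl))
      intro V _ _ _ E φ S hS hSh hR
      exact key _ V E φ S rfl hS hSh hR

end MPed7341.KM
end

section
/-
MP_ed7341_co, all m, module MAP: minors of contractions are minors (helper75).
-/
set_option autoImplicit false

namespace MPed7341.KM

open Submodule Finset

theorem MAP : SpecMAP := by
  refine ⟨?_, ?_⟩
  · intro F _ V V' _ _ _ _ _ m π C0 E hC0 hsurj hker hK
    classical
    obtain ⟨C', w', hC', hI, hhit⟩ := hK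
    obtain ⟨C1, hC1E, hC1⟩ := Finset.subset_image_iff.1 hC'
    choose w hw using fun i => hsurj (w' i)
    have hspan : ∀ v : V, v ∈ span F ((C0 ∪ C1 : Finset V) : Set V) ↔
        π v ∈ span F (C' : Set V') := by
      intro v
      have e1 : span F ((C0 ∪ C1 : Finset V) : Set V) =
          Submodule.comap π (span F (C' : Set V')) := by
        rw [← hC1, Finset.coe_image, ← Submodule.map_span, Submodule.comap_map_eq, hker,
          Finset.coe_union, Submodule.span_union, sup_comm]
      rw [e1]; rfl
    refine ⟨C0 ∪ C1, w, Finset.union_subset hC0 hC1E, ?_, ?_⟩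
    · intro a ha hmem
      refine hI a ha ?_
      rw [hspan, map_sum] at hmem
      simpa only [map_smul, hw] using hmem
    · intro i j hij
      obtain ⟨e', he', c, hc, hm⟩ := hhit i j hij
      obtain ⟨e, he, rfl⟩ := Finset.mem_image.1 he'
      refine ⟨e, he, c, hc, ?_⟩
      rw [hspan, map_sub, map_smul, map_sub, hw, hw]
      exact hm
  · intro F _ V _ _ m A E hAE hK
    obtain ⟨C, w, hC, hI, hhit⟩ := hK
    refine ⟨C, w, hC.trans hAE, hI, ?_⟩
    intro i j hij
    obtain ⟨e, he, c, hc, hm⟩ := hhit i j hij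
    exact ⟨e, hAE he, c, hc, hm⟩

end MPed7341.KM
end

section
/-
MP_ed7341_co, all m, module MPR: rooted cliques of contractions (helper12).
-/
set_option autoImplicit false

namespace MPed7341.KM

open Submodule Finset

theorem MPR : SpecMPR := by
  intro F _ V V' _ _ _ _ _ n π h E S T φ φ' hE hφ hker hcomp hT hRK
  classical
  obtain ⟨C', s', hC', hφC, hs', hI, hhit⟩ := hRK
  obtain ⟨C1, hC1E, hC1⟩ := Finset.subset_image_iff.1 hC'
  have hs : ∀ i, ∃ s ∈ S, π s = s' i := fun i => Finset.mem_image.1 (hT (hs' i))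
  choose s hsS hsπ using hs
  have hφ' : ∀ v, φ' (π v) = φ v := fun v => by rw [← hcomp]; rfl
  have hspan : ∀ v : V, v ∈ span F ((({h} : Finset V) ∪ C1 : Finset V) : Set V) ↔
      π v ∈ span F (C' : Set V') := by
    intro v
    have e1 : span F ((({h} : Finset V) ∪ C1 : Finset V) : Set V) =
        Submodule.comap π (span F (C' : Set V')) := by
      rw [← hC1, Finset.coe_image, ← Submodule.map_span, Submodule.comap_map_eq, hker,
        Finset.coe_union, Finset.coe_singleton, Submodule.span_union, sup_comm]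
    rw [e1]; rfl
  refine ⟨{h} ∪ C1, s, Finset.union_subset (Finset.singleton_subset_iff.2 hE) hC1E, ?_, hsS, ?_,
    ?_⟩
  · intro c hc
    rcases Finset.mem_union.1 hc with hc | hc
    · rw [Finset.mem_singleton.1 hc]; exact hφ
    · rw [← hφ' c]
      exact hφC _ (hC1 ▸ Finset.mem_image_of_mem π hc)
  · intro a ha
    refine hI a ?_
    rw [hspan, map_sum] at ha
    simpa only [map_smul, hsπ] using ha
  · intro i j hij
    obtain ⟨e', he', c, hc, hm⟩ := hhit i j hij
    obtain ⟨e, he, rfl⟩ := Finset.mem_image.1 he'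
    refine ⟨e, he, c, hc, ?_⟩
    rw [hspan, map_sub, map_smul, map_sub, hsπ, hsπ]
    exact hm

end MPed7341.KM
end

section
/-
Module NUM of MP_ed7341_co / KM (helper19). The numbers.
-/
set_option autoImplicit false

namespace MPed7341.KM

namespace NUMM

theorem nn_bound (q : ℕ) (hq : 2 ≤ q) : ∀ k d : ℕ, q * NN q k d + 1 ≤ (q ^ 2 * (d + 1)) ^ k := by
  intro k
  induction k with
  | zero => intro d; simp [NN]
  | succ k ihk =>
    intro d
    induction d with
    | zero =>
      have h : 0 < (q ^ 2 * (0 + 1)) ^ (k + 1) := by positivity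
      simp only [NN]
      omega
    | succ d ihd =>
      have h1 := ihk (d + 1)
      have e : q * NN q (k + 1) (d + 1) + 1
          = (q * NN q (k + 1) d + 1) + q ^ 2 * (q * NN q k (d + 1) + 1) := by
        simp only [NN]; ring
      rw [e]
      have h2 : (q ^ 2 * (d + 1)) ^ k ≤ (q ^ 2 * (d + 1 + 1)) ^ k :=
        Nat.pow_le_pow_left (Nat.mul_le_mul_left _ (by omega)) k
      have h3 : (q ^ 2 * (d + 1)) ^ (k + 1)
          ≤ q ^ 2 * (d + 1) * (q ^ 2 * (d + 1 + 1)) ^ k := by
        rw [pow_succ, mul_comm]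
        exact Nat.mul_le_mul_left _ h2
      calc (q * NN q (k + 1) d + 1) + q ^ 2 * (q * NN q k (d + 1) + 1)
          ≤ q ^ 2 * (d + 1) * (q ^ 2 * (d + 1 + 1)) ^ k
              + q ^ 2 * (q ^ 2 * (d + 1 + 1)) ^ k :=
            Nat.add_le_add (le_trans ihd h3) (Nat.mul_le_mul_left _ h1)
        _ = (q ^ 2 * (d + 1 + 1)) ^ (k + 1) := by ring

theorem pow_bound (q n L : ℕ) (hL : 3 ≤ L) (hqm : q * (n + 3) < 2 ^ L) :
    2 * q * (4 * (n + 3) * L) * (4 * (n + 3) * L * q ^ 2) ^ n < 2 ^ (4 * (n + 3) * L) := by
  have h4L : 4 * L ≤ 2 ^ (L + 1) := by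
    have : ∀ k : ℕ, 4 * (k + 3) ≤ 2 ^ (k + 3 + 1) := by
      intro k
      induction k with
      | zero => norm_num
      | succ k ih =>
        have : 2 ^ (k + 1 + 3 + 1) = 2 * 2 ^ (k + 3 + 1) := by ring
        omega
    obtain ⟨k, rfl⟩ := Nat.exists_eq_add_of_le hL
    have := this k
    rwa [add_comm 3 k]
  have e : 2 * q * (4 * (n + 3) * L) * (4 * (n + 3) * L * q ^ 2) ^ n
      = 2 * ((4 * L) ^ (n + 1) * ((n + 3) ^ (n + 1) * q ^ (2 * n + 1))) := by
    have : q ^ (2 * n + 1) = (q ^ 2) ^ n * q := by rw [← pow_mul, ← pow_succ]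
    rw [this]
    simp only [mul_pow, pow_succ]
    ring
  rw [e]
  have h1 : (n + 3) ^ (n + 1) * q ^ (2 * n + 1) ≤ (q * (n + 3)) ^ (2 * n + 1) := by
    rw [mul_pow, mul_comm]
    exact Nat.mul_le_mul_left _ (Nat.pow_le_pow_right (by omega) (by omega))
  have h2 : (q * (n + 3)) ^ (2 * n + 1) < (2 ^ L) ^ (2 * n + 1) :=
    Nat.pow_lt_pow_left hqm (by omega)
  have h3 : (4 * L) ^ (n + 1) ≤ (2 ^ (L + 1)) ^ (n + 1) := Nat.pow_le_pow_left h4L _
  have h4 : 0 < (4 * L) ^ (n + 1) := by positivity
  have h5 : (4 * L) ^ (n + 1) * ((n + 3) ^ (n + 1) * q ^ (2 * n + 1))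
      < (2 ^ (L + 1)) ^ (n + 1) * (2 ^ L) ^ (2 * n + 1) :=
    calc (4 * L) ^ (n + 1) * ((n + 3) ^ (n + 1) * q ^ (2 * n + 1))
        < (4 * L) ^ (n + 1) * (2 ^ L) ^ (2 * n + 1) :=
          Nat.mul_lt_mul_of_pos_left (lt_of_le_of_lt h1 h2) h4
      _ ≤ _ := Nat.mul_le_mul_right _ h3
  calc 2 * ((4 * L) ^ (n + 1) * ((n + 3) ^ (n + 1) * q ^ (2 * n + 1)))
      < 2 * ((2 ^ (L + 1)) ^ (n + 1) * (2 ^ L) ^ (2 * n + 1)) := by omega
    _ = 2 ^ (1 + (L + 1) * (n + 1) + L * (2 * n + 1)) := by
        rw [← pow_mul, ← pow_mul, pow_add, pow_add, pow_one]; ring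
    _ ≤ 2 ^ (4 * (n + 3) * L) := Nat.pow_le_pow_right (by norm_num) (by nlinarith)

end NUMM

theorem NUM : SpecNUM := by
  intro q m hq hm
  obtain ⟨n, rfl⟩ := Nat.exists_eq_add_of_le hm
  have e1 : 3 + n - 3 = n := by omega
  rw [e1]
  rw [add_comm 3 n]
  set L := Nat.log 2 (q * (n + 3)) + 1 with hLdef
  have hqm : q * (n + 3) < 2 ^ L := Nat.lt_pow_succ_log_self (by norm_num) _
  have hL : 3 ≤ L := by
    have h6 : 6 ≤ q * (n + 3) := by nlinarith
    have : 2 ≤ Nat.log 2 (q * (n + 3)) := by
      apply Nat.le_log_of_pow_le (by norm_num)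
      omega
    omega
  have hy : 1 ≤ 4 * (n + 3) * L := by
    have : 0 < 4 * (n + 3) * L := by positivity
    omega
  set y := 4 * (n + 3) * L with hydef
  have hN := NUMM.nn_bound q hq n (y - 1)
  have e2 : y - 1 + 1 = y := by omega
  rw [e2] at hN
  have e3 : (q ^ 2 * y) ^ n = (y * q ^ 2) ^ n := by rw [mul_comm]
  rw [e3] at hN
  have hP := NUMM.pow_bound q n L hL hqm
  rw [← hydef] at hP
  set X := (y * q ^ 2) ^ n with hX
  refine ⟨?_, by omega⟩
  unfold Nu
  rw [e2]
  have h1 : 2 * (q * NN q n (y - 1)) + 1 ≤ 2 * X - 1 := by omega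
  have hX1 : 1 ≤ X := by omega
  obtain ⟨p, rfl⟩ := Nat.exists_eq_add_of_le hq
  have e4 : 2 + p - 1 = p + 1 := by omega
  rw [e4]
  refine lt_of_le_of_lt ?_ hP
  obtain ⟨Z, hZ⟩ := Nat.exists_eq_add_of_le hX1
  have h2 : (p + 1) * (2 * ((2 + p) * NN (2 + p) n (y - 1)) + 1) * y
      ≤ (p + 1) * (2 * Z + 1) * y := by
    apply Nat.mul_le_mul_right
    apply Nat.mul_le_mul_left
    omega
  rw [hZ]
  refine le_trans (Nat.add_le_add_left h2 1) ?_
  nlinarith [Nat.zero_le (p * Z * y), Nat.zero_le (Z * y), Nat.zero_le (p * y)]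

end MPed7341.KM
end

section
/-
MP_ed7341_co, all m, module SHA: contraction keeps the shatter condition (helper49).
-/
set_option autoImplicit false

namespace MPed7341.KM

open Submodule Finset

namespace SHAM

open Classical in
/-- lifts of a finite subset of `π E`. -/
theorem lifts {V V' : Type} (π : V → V') (E : Finset V) (D : Finset V') (e0 : V)
    (hD : ∀ x ∈ D, ∃ e ∈ E, π e = x) :
    ∃ σ : V' → V, (∀ x ∈ D, σ x ∈ E) ∧ (∀ x ∈ D, π (σ x) = x) := by
  refine ⟨fun x => if hx : x ∈ D then (hD x hx).choose else e0, ?_, ?_⟩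
  · intro x hx
    simp only [hx, dif_pos]
    exact (hD x hx).choose_spec.1
  · intro x hx
    simp only [hx, dif_pos]
    exact (hD x hx).choose_spec.2

/-- lifted sets: independence of `σ D ∪ {h}`. -/
theorem indep {F : Type} [Field F] {V V' : Type} [AddCommGroup V] [Module F V] [AddCommGroup V']
    [Module F V'] (π : V →ₗ[F] V') (h : V) (h0 : h ≠ 0) (hh : π h = 0) (D : Set V')
    (σ : V' → V) (hσ : ∀ x ∈ D, π (σ x) = x) (hind : LinearIndepOn F id D) :
    LinearIndepOn F id (insert h (σ '' D)) := by
  have e1 : LinearIndepOn F (π ∘ σ) D := by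
    refine (linearIndepOn_congr ?_).1 hind
    intro x hx
    simp [hσ x hx]
  have e2 : LinearIndepOn F σ D := LinearIndepOn.of_comp π e1
  refine LinearIndepOn.id_insert e2.id_image ?_
  intro hmem
  apply h0
  have hmem2 : h ∈ span F (σ '' D) := hmem
  rw [Finsupp.mem_span_image_iff_linearCombination] at hmem2
  obtain ⟨l, hl, hlh⟩ := hmem2
  have h3 : Finsupp.linearCombination F (π ∘ σ) l = 0 := by
    rw [← Finsupp.apply_linearCombination, hlh, hh]
  have h4 : l = 0 := by
    rw [linearIndepOn_iff] at e1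
    exact e1 l hl h3
  rw [← hlh, h4, map_zero]

end SHAM

open Classical in
theorem SHA : SpecSHA := by
  intro F _ V V' _ _ _ _ inst d π h E S φ φ' hE h0 hφ hsurj hker hcomp hSh C J hC hJ hz hdisj hind
    hcard v'
  have hinst : inst = fun a b => Classical.propDecidable (a = b) := Subsingleton.elim _ _
  subst hinst
  have hh : π h = 0 := by
    have : h ∈ LinearMap.ker π := by rw [hker]; exact Submodule.mem_span_singleton_self h
    exact this
  have hDE : ∀ x ∈ C ∪ J, ∃ e ∈ E, π e = x := by
    intro x hx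
    rcases Finset.mem_union.1 hx with hx | hx
    · exact Finset.mem_image.1 (hC hx)
    · exact Finset.mem_image.1 (hJ hx)
  obtain ⟨σ, hσE, hσ⟩ := SHAM.lifts π E (C ∪ J) h hDE
  have hinj : ∀ x ∈ C ∪ J, ∀ y ∈ C ∪ J, σ x = σ y → x = y := by
    intro x hx y hy hxy
    rw [← hσ x hx, ← hσ y hy, hxy]
  have hne0 : ∀ x ∈ C ∪ J, x ≠ 0 := by
    intro x hx h0x
    have := hind.ne_zero (show x ∈ ((C ∪ J : Finset V') : Set V') from hx)
    exact this h0x
  obtain ⟨v1, rfl⟩ := hsurj v'
  have hCs : ((insert h (C.image σ) ∪ J.image σ : Finset V) : Set V) =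
      insert h (σ '' ((C ∪ J : Finset V') : Set V')) := by
    ext z
    simp only [Finset.coe_union, Finset.coe_insert, Finset.coe_image, Set.image_union,
      Set.insert_union]
  have hspan : ∀ (D : Finset V') , D ⊆ C ∪ J → ∀ v : V,
      v ∈ span F (insert h (σ '' (D : Set V'))) ↔ π v ∈ span F (D : Set V') := by
    intro D hD v
    have e0 : (D : Set V') = π '' (σ '' (D : Set V')) := by
      ext z
      constructor
      · intro hz
        exact ⟨σ z, ⟨z, hz, rfl⟩, hσ z (hD hz)⟩
      · rintro ⟨_, ⟨y, hy, rfl⟩, rfl⟩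
        rw [hσ y (hD hy)]
        exact hy
    have e1 : span F (insert h (σ '' (D : Set V'))) =
        Submodule.comap π (span F (D : Set V')) := by
      conv_rhs => rw [e0]
      rw [← Submodule.map_span, Submodule.comap_map_eq, hker, Submodule.span_insert, sup_comm]
    rw [e1]; rfl
  have key := hSh (insert h (C.image σ)) (J.image σ) ?_ ?_ ?_ ?_ ?_ ?_ v1
  · refine lt_of_le_of_lt ?_ key
    -- the map of the quotients
    let W : Submodule F V := span F ((insert h (C.image σ) : Finset V) : Set V)
    have hW : W = span F (insert h (σ '' (C : Set V'))) := by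
      simp only [W, Finset.coe_insert, Finset.coe_image]
    have hle : W ≤ (span F (C : Set V')).comap π := by
      intro z hz
      rw [hW] at hz
      exact (hspan C Finset.subset_union_left z).1 hz
    refine le_trans (Finset.card_le_card ?_) (Finset.card_image_le
      (f := (Submodule.mapQ W (span F (C : Set V')) π hle)))
    intro z hz
    obtain ⟨s', hs', rfl⟩ := Finset.mem_image.1 hz
    obtain ⟨hs1, hs2⟩ := Finset.mem_filter.1 hs'
    obtain ⟨s, hs, rfl⟩ := Finset.mem_image.1 hs1
    refine Finset.mem_image.2 ⟨W.mkQ s, Finset.mem_image.2 ⟨s, Finset.mem_filter.2 ⟨hs, ?_⟩, rfl⟩,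
      ?_⟩
    · rw [hCs, hspan _ subset_rfl, map_sub]
      exact hs2
    · simp
  · intro x hx
    rcases Finset.mem_insert.1 hx with rfl | hx
    · exact hE
    · obtain ⟨y, hy, rfl⟩ := Finset.mem_image.1 hx
      exact hσE y (Finset.mem_union_left _ hy)
  · intro x hx
    obtain ⟨y, hy, rfl⟩ := Finset.mem_image.1 hx
    exact hσE y (Finset.mem_union_right _ hy)
  · intro x hx
    have hcc : ∀ z, φ z = φ' (π z) := fun z => by rw [← hcomp]; rfl
    rcases Finset.mem_union.1 hx with hx | hx
    · rcases Finset.mem_insert.1 hx with rfl | hx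
      · exact hφ
      · obtain ⟨y, hy, rfl⟩ := Finset.mem_image.1 hx
        rw [hcc, hσ y (Finset.mem_union_left _ hy)]
        exact hz y (Finset.mem_union_left _ hy)
    · obtain ⟨y, hy, rfl⟩ := Finset.mem_image.1 hx
      rw [hcc, hσ y (Finset.mem_union_right _ hy)]
      exact hz y (Finset.mem_union_right _ hy)
  · rw [Finset.disjoint_left]
    intro x hx hx2
    obtain ⟨y, hy, hyx⟩ := Finset.mem_image.1 hx2
    rcases Finset.mem_insert.1 hx with rfl | hx
    · apply hne0 y (Finset.mem_union_right _ hy)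
      rw [← hσ y (Finset.mem_union_right _ hy), hyx, hh]
    · obtain ⟨z, hz', rfl⟩ := Finset.mem_image.1 hx
      have := hinj y (Finset.mem_union_right _ hy) z (Finset.mem_union_left _ hz') hyx
      subst this
      exact Finset.disjoint_left.1 hdisj hz' hy
  · rw [hCs]
    exact SHAM.indep π h h0 hh _ σ (fun x hx => hσ x hx) hind
  · rw [Finset.card_image_of_injOn, hcard]
    intro x hx y hy hxy
    exact hinj x (Finset.mem_union_right _ hx) y (Finset.mem_union_right _ hy) hxy

end MPed7341.KM
end

section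
/-
MP_ed7341_co, all m, module SHB: the multiple classes have the smaller shatter condition (helper22).
-/
set_option autoImplicit false

namespace MPed7341.KM

open Submodule Finset

namespace SHBM

open Classical in
/-- lifts of a finite subset of `π E`. -/
theorem lifts {V V' : Type} (π : V → V') (E : Finset V) (D : Finset V') (e0 : V)
    (hD : ∀ x ∈ D, ∃ e ∈ E, π e = x) :
    ∃ σ : V' → V, (∀ x ∈ D, σ x ∈ E) ∧ (∀ x ∈ D, π (σ x) = x) := by
  refine ⟨fun x => if hx : x ∈ D then (hD x hx).choose else e0, ?_, ?_⟩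
  · intro x hx
    simp only [hx, dif_pos]
    exact (hD x hx).choose_spec.1
  · intro x hx
    simp only [hx, dif_pos]
    exact (hD x hx).choose_spec.2

/-- lifted sets: independence of `σ D ∪ {h}`, and `h` is not in the span of `σ D`. -/
theorem indep {F : Type} [Field F] {V V' : Type} [AddCommGroup V] [Module F V] [AddCommGroup V']
    [Module F V'] (π : V →ₗ[F] V') (h : V) (h0 : h ≠ 0) (hh : π h = 0) (D : Set V')
    (σ : V' → V) (hσ : ∀ x ∈ D, π (σ x) = x) (hind : LinearIndepOn F id D) :
    LinearIndepOn F id (insert h (σ '' D)) ∧ h ∉ span F (σ '' D) := by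
  have e1 : LinearIndepOn F (π ∘ σ) D := by
    refine (linearIndepOn_congr ?_).1 hind
    intro x hx
    simp [hσ x hx]
  have e2 : LinearIndepOn F σ D := LinearIndepOn.of_comp π e1
  have hno : h ∉ span F (σ '' D) := by
    intro hmem
    apply h0
    have hmem2 : h ∈ span F (σ '' D) := hmem
    rw [Finsupp.mem_span_image_iff_linearCombination] at hmem2
    obtain ⟨l, hl, hlh⟩ := hmem2
    have h3 : Finsupp.linearCombination F (π ∘ σ) l = 0 := by
      rw [← Finsupp.apply_linearCombination, hlh, hh]
    have h4 : l = 0 := by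
      rw [linearIndepOn_iff] at e1
      exact e1 l hl h3
    rw [← hlh, h4, map_zero]
  exact ⟨LinearIndepOn.id_insert e2.id_image hno, hno⟩

open Classical in
/-- counting: fibres of size at least two. -/
theorem twice {α β : Type} (B : Finset α) (Z : Finset β) (ρ : α → β)
    (h : ∀ z ∈ Z, 2 ≤ (B.filter (fun b => ρ b = z)).card) : 2 * Z.card ≤ B.card := by
  have h1 : (Z.biUnion fun z => B.filter (fun b => ρ b = z)).card =
      ∑ z ∈ Z, (B.filter (fun b => ρ b = z)).card := by
    apply Finset.card_biUnion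
    intro x _ y _ hxy
    rw [Function.onFun, Finset.disjoint_left]
    intro b hb hb'
    exact hxy ((Finset.mem_filter.1 hb).2.symm.trans (Finset.mem_filter.1 hb').2)
  have h2 : ∑ _z ∈ Z, 2 ≤ ∑ z ∈ Z, (B.filter (fun b => ρ b = z)).card :=
    Finset.sum_le_sum h
  rw [Finset.sum_const, smul_eq_mul] at h2
  have h3 : (Z.biUnion fun z => B.filter (fun b => ρ b = z)).card ≤ B.card := by
    apply Finset.card_le_card
    intro b hb
    obtain ⟨z, _, hz⟩ := Finset.mem_biUnion.1 hb
    exact (Finset.mem_filter.1 hz).1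
  omega

end SHBM

open Classical in
theorem SHB : SpecSHB := by
  intro F _ V V' _ _ _ _ d π h E S T φ φ' hE h0 hφ hsurj hker hcomp hSh hTS hT C J hC hJ hz hdisj
    hind hcard v'
  have hh : π h = 0 := by
    have : h ∈ LinearMap.ker π := by rw [hker]; exact Submodule.mem_span_singleton_self h
    exact this
  have hDE : ∀ x ∈ C ∪ J, ∃ e ∈ E, π e = x := by
    intro x hx
    rcases Finset.mem_union.1 hx with hx | hx
    · exact Finset.mem_image.1 (hC hx)
    · exact Finset.mem_image.1 (hJ hx)
  obtain ⟨σ, hσE, hσ⟩ := SHBM.lifts π E (C ∪ J) h hDE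
  have hinj : ∀ x ∈ C ∪ J, ∀ y ∈ C ∪ J, σ x = σ y → x = y := by
    intro x hx y hy hxy
    rw [← hσ x hx, ← hσ y hy, hxy]
  have hne0 : ∀ x ∈ C ∪ J, x ≠ 0 := by
    intro x hx h0x
    have := hind.ne_zero (show x ∈ ((C ∪ J : Finset V') : Set V') from hx)
    exact this h0x
  have hσh : ∀ x ∈ C ∪ J, σ x ≠ h := by
    intro x hx he
    apply hne0 x hx
    rw [← hσ x hx, he, hh]
  obtain ⟨v1, rfl⟩ := hsurj v'
  have hCs : ((C.image σ ∪ insert h (J.image σ) : Finset V) : Set V) =
      insert h (σ '' ((C ∪ J : Finset V') : Set V')) := by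
    ext z
    simp only [Finset.coe_union, Finset.coe_insert, Finset.coe_image, Set.image_union,
      Set.union_insert]
  have hspan : ∀ (D : Finset V') , D ⊆ C ∪ J → ∀ v : V,
      v ∈ span F (insert h (σ '' (D : Set V'))) ↔ π v ∈ span F (D : Set V') := by
    intro D hD v
    have e0 : (D : Set V') = π '' (σ '' (D : Set V')) := by
      ext z
      constructor
      · intro hz
        exact ⟨σ z, ⟨z, hz, rfl⟩, hσ z (hD hz)⟩
      · rintro ⟨_, ⟨y, hy, rfl⟩, rfl⟩
        rw [hσ y (hD hy)]
        exact hy
    have e1 : span F (insert h (σ '' (D : Set V'))) =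
        Submodule.comap π (span F (D : Set V')) := by
      conv_rhs => rw [e0]
      rw [← Submodule.map_span, Submodule.comap_map_eq, hker, Submodule.span_insert, sup_comm]
    rw [e1]; rfl
  have hindep := SHBM.indep π h h0 hh ((C ∪ J : Finset V') : Set V') σ (fun x hx => hσ x hx) hind
  have hnoC : h ∉ span F ((C.image σ : Finset V) : Set V) := by
    intro hmem
    apply hindep.2
    refine Submodule.span_mono ?_ hmem
    rw [Finset.coe_image]
    exact Set.image_mono (by
      rw [Finset.coe_union]
      exact Set.subset_union_left)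
  have key := hSh (C.image σ) (insert h (J.image σ)) ?_ ?_ ?_ ?_ ?_ ?_ v1
  · -- the map of the quotients
    let W : Submodule F V := span F ((C.image σ : Finset V) : Set V)
    have hle : W ≤ (span F (C : Set V')).comap π := by
      intro z hz
      refine (hspan C Finset.subset_union_left z).1 ?_
      have hz' : z ∈ span F (σ '' (C : Set V')) := by
        have : z ∈ span F ((C.image σ : Finset V) : Set V) := hz
        rwa [Finset.coe_image] at this
      exact Submodule.span_mono (Set.subset_insert _ _) hz'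
    have h2 := SHBM.twice ((S.filter (fun s => s - v1 ∈ span F ((C.image σ ∪
        insert h (J.image σ) : Finset V) : Set V))).image W.mkQ)
      ((T.filter (fun s => s - π v1 ∈ span F ((C ∪ J : Finset V') : Set V'))).image
        (span F (C : Set V')).mkQ) (Submodule.mapQ W (span F (C : Set V')) π hle) ?_
    · have h3 : (2 : ℕ) ^ (d + 1 + 1) = 2 * 2 ^ (d + 1) := by ring
      have h4 : ((S.filter (fun s => s - v1 ∈ span F ((C.image σ ∪
        insert h (J.image σ) : Finset V) : Set V))).image W.mkQ).card < 2 ^ (d + 1 + 1) := key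
      rw [h3] at h4
      exact Nat.lt_of_mul_lt_mul_left (lt_of_le_of_lt h2 h4)
    · intro z hz
      obtain ⟨c, hc, rfl⟩ := Finset.mem_image.1 hz
      obtain ⟨hcT, hc2⟩ := Finset.mem_filter.1 hc
      obtain ⟨s, hs, t, ht, hst⟩ := Finset.one_lt_card.1 (hT c hcT)
      obtain ⟨hsS, hsc⟩ := Finset.mem_filter.1 hs
      obtain ⟨htS, htc⟩ := Finset.mem_filter.1 ht
      have hin : ∀ s ∈ S, π s = c → W.mkQ s ∈ (((S.filter (fun s => s - v1 ∈ span F
          ((C.image σ ∪ insert h (J.image σ) : Finset V) : Set V))).image W.mkQ).filter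
          (fun b => Submodule.mapQ W (span F (C : Set V')) π hle b =
            (span F (C : Set V')).mkQ c)) := by
        intro s hs hsc
        refine Finset.mem_filter.2 ⟨Finset.mem_image.2 ⟨s, Finset.mem_filter.2 ⟨hs, ?_⟩, rfl⟩, ?_⟩
        · rw [hCs, hspan _ subset_rfl, map_sub, hsc]
          exact hc2
        · simp [hsc]
      refine Finset.one_lt_card.2 ⟨W.mkQ s, hin s hsS hsc, W.mkQ t, hin t htS htc, ?_⟩
      intro heq
      have hd : s - t ∈ W := by
        have h5 : W.mkQ (s - t) = 0 := by rw [map_sub, heq, sub_self]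
        rwa [Submodule.mkQ_apply, Submodule.Quotient.mk_eq_zero] at h5
      have hk : s - t ∈ LinearMap.ker π := by
        rw [LinearMap.mem_ker, map_sub, hsc, htc, sub_self]
      rw [hker, Submodule.mem_span_singleton] at hk
      obtain ⟨a, ha⟩ := hk
      have ha0 : a ≠ 0 := by
        rintro rfl
        apply hst
        rw [zero_smul] at ha
        exact sub_eq_zero.1 ha.symm
      apply hnoC
      have h6 : a • h ∈ W := by rw [ha]; exact hd
      have h7 := W.smul_mem a⁻¹ h6
      rwa [smul_smul, inv_mul_cancel₀ ha0, one_smul] at h7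
  · intro x hx
    obtain ⟨y, hy, rfl⟩ := Finset.mem_image.1 hx
    exact hσE y (Finset.mem_union_left _ hy)
  · intro x hx
    rcases Finset.mem_insert.1 hx with rfl | hx
    · exact hE
    · obtain ⟨y, hy, rfl⟩ := Finset.mem_image.1 hx
      exact hσE y (Finset.mem_union_right _ hy)
  · intro x hx
    have hcc : ∀ z, φ z = φ' (π z) := fun z => by rw [← hcomp]; rfl
    rcases Finset.mem_union.1 hx with hx | hx
    · obtain ⟨y, hy, rfl⟩ := Finset.mem_image.1 hx
      rw [hcc, hσ y (Finset.mem_union_left _ hy)]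
      exact hz y (Finset.mem_union_left _ hy)
    · rcases Finset.mem_insert.1 hx with rfl | hx
      · exact hφ
      · obtain ⟨y, hy, rfl⟩ := Finset.mem_image.1 hx
        rw [hcc, hσ y (Finset.mem_union_right _ hy)]
        exact hz y (Finset.mem_union_right _ hy)
  · rw [Finset.disjoint_left]
    intro x hx hx2
    obtain ⟨y, hy, hyx⟩ := Finset.mem_image.1 hx
    rcases Finset.mem_insert.1 hx2 with rfl | hx2
    · exact hσh y (Finset.mem_union_left _ hy) hyx
    · obtain ⟨z, hz', rfl⟩ := Finset.mem_image.1 hx2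
      have := hinj y (Finset.mem_union_left _ hy) z (Finset.mem_union_right _ hz') hyx
      subst this
      exact Finset.disjoint_left.1 hdisj hy hz'
  · rw [hCs]
    exact hindep.1
  · rw [Finset.card_insert_of_notMem, Finset.card_image_of_injOn, hcard]
    · intro x hx y hy hxy
      exact hinj x (Finset.mem_union_right _ hx) y (Finset.mem_union_right _ hy) hxy
    · intro hmem
      obtain ⟨y, hy, hyh⟩ := Finset.mem_image.1 hmem
      exact hσh y (Finset.mem_union_right _ hy) hyh

end MPed7341.KM
end

section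
/-
MP_ed7341_co, all m, module SHZ: the shatter condition from the density bound for contractions
(helper75).
-/
set_option autoImplicit false

namespace MPed7341.KM

open Submodule Finset

namespace SHZM

variable {F : Type} [Field F] {V : Type} [AddCommGroup V] [Module F V]

open Classical in
/-- a simple set of representatives of the points of `P`. -/
theorem exists_simple (P : Finset V) (hP : (0 : V) ∉ P) :
    ∃ A : Finset V, A ⊆ P ∧ Simple F A ∧ ∀ p ∈ P, ∃ a ∈ A, ∃ t : F, p = t • a := by
  induction P using Finset.induction_on with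
  | empty => exact ⟨∅, subset_rfl, ⟨by simp, by simp⟩, by simp⟩
  | insert p P hp ih =>
    have h0 : (0 : V) ∉ P := fun h => hP (Finset.mem_insert_of_mem h)
    have hp0 : p ≠ 0 := fun h => hP (h ▸ Finset.mem_insert_self p P)
    obtain ⟨A, hA, hs, hr⟩ := ih h0
    by_cases hex : ∃ a ∈ A, ∃ t : F, p = t • a
    · refine ⟨A, hA.trans (Finset.subset_insert _ _), hs, ?_⟩
      intro x hx
      rcases Finset.mem_insert.1 hx with rfl | hx
      · exact hex
      · exact hr x hx
    · refine ⟨insert p A, Finset.insert_subset_insert _ hA, ⟨?_, ?_⟩, ?_⟩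
      · intro h
        rcases Finset.mem_insert.1 h with h | h
        · exact hp0 h.symm
        · exact hs.1 h
      · intro x hx y hy c hyc
        rcases Finset.mem_insert.1 hx with hx1 | hx1
        · rcases Finset.mem_insert.1 hy with hy1 | hy1
          · rw [hx1, hy1]
          · exfalso
            have hc : c ≠ 0 := by
              rintro rfl
              rw [zero_smul] at hyc
              exact hs.1 (hyc ▸ hy1)
            refine hex ⟨y, hy1, c⁻¹, ?_⟩
            rw [hyc, smul_smul, inv_mul_cancel₀ hc, one_smul, hx1]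
        · rcases Finset.mem_insert.1 hy with hy1 | hy1
          · exact absurd ⟨x, hx1, c, hy1 ▸ hyc⟩ hex
          · exact hs.2 x hx1 y hy1 c hyc
      · intro x hx
        rcases Finset.mem_insert.1 hx with rfl | hx
        · exact ⟨x, Finset.mem_insert_self _ _, 1, (one_smul _ _).symm⟩
        · obtain ⟨a, ha, t, ht⟩ := hr x hx
          exact ⟨a, Finset.mem_insert_of_mem ha, t, ht⟩

/-- a vector of `span C ⊔ span {x0}` in the kernel of `ψ` is in `span C`. -/
theorem mem_of_psi (ψ : V →ₗ[F] F) (C : Set V) (hC : ∀ c ∈ C, ψ c = 0) (x0 : V) (h1 : ψ x0 = 1)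
    (y : V) (hy : y ∈ span F C ⊔ span F {x0}) (h0 : ψ y = 0) : y ∈ span F C := by
  have hk : span F C ≤ LinearMap.ker ψ := Submodule.span_le.2 (fun c hc => hC c hc)
  obtain ⟨u, hu, w, hw, rfl⟩ := Submodule.mem_sup.1 hy
  obtain ⟨t, rfl⟩ := Submodule.mem_span_singleton.1 hw
  have hu0 : ψ u = 0 := hk hu
  rw [map_add, map_smul, hu0, h1, zero_add, smul_eq_mul, mul_one] at h0
  rw [h0, zero_smul, add_zero]
  exact hu

theorem rk_lt [Module.Finite F V] (A : Finset V) (W : Submodule F V) (a : V) (haA : a ∈ A)
    (ha : a ∈ W) (ha0 : a ≠ 0) (A' : Finset (V ⧸ W))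
    (hA' : (A' : Set (V ⧸ W)) ⊆ W.mkQ '' (A : Set V)) : rk F A' < rk F A := by
  unfold rk
  have h1 : span F (A' : Set (V ⧸ W)) ≤ (span F (A : Set V)).map W.mkQ := by
    rw [Submodule.map_span]
    exact Submodule.span_mono hA'
  have h2 := Submodule.finrank_mono h1
  have haP : a ∈ span F (A : Set V) := Submodule.subset_span haA
  have h4 := LinearMap.finrank_range_add_finrank_ker (W.mkQ.domRestrict (span F (A : Set V)))
  have h5 : LinearMap.range (W.mkQ.domRestrict (span F (A : Set V))) =
      (span F (A : Set V)).map W.mkQ := LinearMap.range_domRestrict _ _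
  rw [h5] at h4
  have h6 : 0 < Module.finrank F (LinearMap.ker (W.mkQ.domRestrict (span F (A : Set V)))) := by
    rw [Module.finrank_pos_iff_exists_ne_zero]
    refine ⟨⟨⟨a, haP⟩, ?_⟩, ?_⟩
    · rw [LinearMap.mem_ker, LinearMap.domRestrict_apply, ← LinearMap.mem_ker,
        Submodule.ker_mkQ]
      exact ha
    · intro h
      apply ha0
      have h7 := congrArg Subtype.val h
      have h8 := congrArg Subtype.val h7
      simpa using h8
  omega

theorem rk_le_card [Module.Finite F V] (W : Submodule F V) (J : Finset V) (A' : Finset (V ⧸ W))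
    (hA' : ∀ x ∈ A', ∃ u ∈ W ⊔ span F (J : Set V), W.mkQ u = x) : rk F A' ≤ J.card := by
  classical
  unfold rk
  have h1 : span F (A' : Set (V ⧸ W)) ≤
      span F ((J.image W.mkQ : Finset (V ⧸ W)) : Set (V ⧸ W)) := by
    rw [Submodule.span_le]
    intro x hx
    obtain ⟨u, hu, rfl⟩ := hA' x hx
    obtain ⟨w, hw, j, hj, rfl⟩ := Submodule.mem_sup.1 hu
    have hw0 : W.mkQ w = 0 := by
      rw [Submodule.mkQ_apply, Submodule.Quotient.mk_eq_zero]
      exact hw
    rw [map_add, hw0, zero_add, Finset.coe_image, ← Submodule.map_span]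
    exact Submodule.mem_map_of_mem hj
  exact (Submodule.finrank_mono h1).trans
    ((finrank_span_finset_le_card _).trans Finset.card_image_le)

end SHZM

open SHZM in
open Classical in
theorem SHZ (hMAP : SpecMAP) : SpecSHZ := by
  intro F _ _ V _ _ _ m d ρ A hK hnum hρ ψ C J hCA hJA hz hdis hind hJ v
  have hC0 : ∀ c ∈ (C : Set V), ψ c = 0 := fun c hc => hz c (Finset.mem_union_left _ hc)
  generalize hX : (cut F ψ (cone F A)).filter
    (fun s => s - v ∈ span F ((C ∪ J : Finset V) : Set V)) = X
  rcases X.eq_empty_or_nonempty with he | ⟨x0, hx0⟩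
  · rw [he]; simp
  have hXf : ∀ x ∈ X, ψ x = 1 ∧ x - v ∈ span F ((C ∪ J : Finset V) : Set V) ∧
      ∃ c : F, c ≠ 0 ∧ ∃ a ∈ A, a ≠ 0 ∧ x = c • a := by
    intro x hx
    rw [← hX, Finset.mem_filter] at hx
    unfold cut cone at hx
    rw [Finset.mem_filter, Finset.mem_image] at hx
    obtain ⟨⟨⟨p, hp, rfl⟩, h1⟩, h2⟩ := hx
    rw [Finset.mem_product, Finset.mem_filter, Finset.mem_filter] at hp
    exact ⟨h1, h2, p.1, hp.1.2, p.2, hp.2.1, hp.2.2, rfl⟩
  obtain ⟨hψ0, hv0, c0, hc0, a0, ha0A, ha00, hxa0⟩ := hXf x0 hx0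
  obtain ⟨W, hW⟩ : ∃ W : Submodule F V, W = span F (C : Set V) ⊔ span F {x0} := ⟨_, rfl⟩
  have hWD : W = span F ((insert a0 C : Finset V) : Set V) := by
    rw [hW, Finset.coe_insert, Submodule.span_insert, sup_comm, hxa0,
      Submodule.span_singleton_smul_eq (IsUnit.mk0 c0 hc0)]
  have ha0W : a0 ∈ W := by
    rw [hWD]
    exact Submodule.subset_span (by simp)
  have hx0W : x0 ∈ W := by
    rw [hW]
    exact (le_sup_right : span F {x0} ≤ _) (mem_span_singleton_self x0)
  have hCW : span F (C : Set V) ≤ W := by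
    rw [hW]; exact le_sup_left
  -- the simple set
  obtain ⟨P, hP⟩ : ∃ P : Finset (V ⧸ W), P = ((A.filter
      (fun a => a ∈ W ⊔ span F (J : Set V))).image W.mkQ).filter (fun p => p ≠ 0) := ⟨_, rfl⟩
  have hP0 : (0 : V ⧸ W) ∉ P := by
    rw [hP, Finset.mem_filter]
    exact fun h => h.2 rfl
  obtain ⟨A', hA'P, hA's, hA'r⟩ := exists_simple (F := F) P hP0
  have hPf : ∀ p ∈ A', ∃ a ∈ A, a ∈ W ⊔ span F (J : Set V) ∧ W.mkQ a = p := by
    intro p hp
    have := hA'P hp
    rw [hP, Finset.mem_filter, Finset.mem_image] at this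
    obtain ⟨⟨a, ha, rfl⟩, _⟩ := this
    rw [Finset.mem_filter] at ha
    exact ⟨a, ha.1, ha.2, rfl⟩
  have hsub : A' ⊆ A.image W.mkQ := by
    intro p hp
    obtain ⟨a, ha, _, rfl⟩ := hPf p hp
    exact Finset.mem_image_of_mem _ ha
  have hK' : ¬ HasK F m A' := by
    intro hK'
    apply hK
    refine hMAP.1 F V (V ⧸ W) m W.mkQ (insert a0 C) A ?_ (Submodule.mkQ_surjective _) ?_ ?_
    · exact Finset.insert_subset ha0A hCA
    · rw [Submodule.ker_mkQ, hWD]
    · exact hMAP.2 F (V ⧸ W) m A' _ hsub hK'
  have hr : rk F A' < rk F A := by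
    refine rk_lt A W a0 ha0A ha0W ha00 A' ?_
    intro p hp
    obtain ⟨a, ha, _, rfl⟩ := hPf p hp
    exact ⟨a, ha, rfl⟩
  have hr2 : rk F A' ≤ d + 1 := by
    rw [← hJ]
    refine rk_le_card W J A' ?_
    intro p hp
    obtain ⟨a, _, ha, rfl⟩ := hPf p hp
    exact ⟨a, ha, rfl⟩
  have hcard : A'.card ≤ ρ * (d + 1) :=
    (hρ (V ⧸ W) A' hA's hK' hr).trans (Nat.mul_le_mul_left _ hr2)
  -- counting
  have hcount : ((X.image (span F (C : Set V)).mkQ).erase ((span F (C : Set V)).mkQ x0)).card ≤
      (((univ : Finset F).erase 0) ×ˢ A').card := by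
    refine Finset.card_le_card_of_forall_subsingleton
      (fun z b => ∃ x ∈ X, (span F (C : Set V)).mkQ x = z ∧ W.mkQ x = b.1 • b.2) ?_ ?_
    · intro z hz'
      rw [Finset.mem_erase, Finset.mem_image] at hz'
      obtain ⟨hne, x, hx, rfl⟩ := hz'
      obtain ⟨hψx, hvx, c, hc, a, haA, ha0, hxa⟩ := hXf x hx
      have hdiff : x - x0 ∈ span F ((C ∪ J : Finset V) : Set V) := by
        have := Submodule.sub_mem _ hvx hv0
        rwa [sub_sub_sub_cancel_right] at this
      have hxU : x ∈ W ⊔ span F (J : Set V) := by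
        rw [Finset.coe_union, Submodule.span_union] at hdiff
        have h1 : x - x0 ∈ W ⊔ span F (J : Set V) := (sup_le_sup_right hCW _) hdiff
        have h2 : x0 ∈ W ⊔ span F (J : Set V) := (le_sup_left : W ≤ _) hx0W
        have := Submodule.add_mem _ h1 h2
        rwa [sub_add_cancel] at this
      have hax : a = c⁻¹ • x := by
        rw [hxa, smul_smul, inv_mul_cancel₀ hc, one_smul]
      have haU : a ∈ W ⊔ span F (J : Set V) := by
        rw [hax]; exact Submodule.smul_mem _ _ hxU
      have hxW : x ∉ W := by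
        intro h
        apply hne
        rw [← sub_eq_zero, ← map_sub, Submodule.mkQ_apply, Submodule.Quotient.mk_eq_zero]
        refine mem_of_psi ψ _ hC0 x0 hψ0 _ ?_ (by rw [map_sub, hψx, hψ0, sub_self])
        rw [← hW]
        exact Submodule.sub_mem _ h hx0W
      have haP : W.mkQ a ∈ P := by
        rw [hP, Finset.mem_filter]
        refine ⟨Finset.mem_image_of_mem _ (Finset.mem_filter.2 ⟨haA, haU⟩), ?_⟩
        intro h
        apply hxW
        rw [Submodule.mkQ_apply, Submodule.Quotient.mk_eq_zero] at h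
        rw [hxa]
        exact Submodule.smul_mem _ _ h
      obtain ⟨b, hb, t, ht⟩ := hA'r _ haP
      have hxb : W.mkQ x = (c * t) • b := by
        rw [hxa, map_smul, ht, smul_smul]
      have hct : c * t ≠ 0 := by
        intro h
        apply hxW
        rw [h, zero_smul, Submodule.mkQ_apply, Submodule.Quotient.mk_eq_zero] at hxb
        exact hxb
      refine ⟨(c * t, b), ?_, x, hx, rfl, hxb⟩
      rw [Finset.mem_product]
      exact ⟨Finset.mem_erase.2 ⟨hct, Finset.mem_univ _⟩, hb⟩
    · intro b _ z1 hz1 z2 hz2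
      obtain ⟨_, x1, hx1, rfl, h1⟩ := hz1
      obtain ⟨_, x2, hx2, rfl, h2⟩ := hz2
      rw [← sub_eq_zero, ← map_sub, Submodule.mkQ_apply, Submodule.Quotient.mk_eq_zero]
      refine mem_of_psi ψ _ hC0 x0 hψ0 _ ?_ (by
        rw [map_sub, (hXf x1 hx1).1, (hXf x2 hx2).1, sub_self])
      rw [← hW, ← Submodule.Quotient.mk_eq_zero, ← Submodule.mkQ_apply, map_sub, h1, h2, sub_self]
  have hmem : (span F (C : Set V)).mkQ x0 ∈ X.image (span F (C : Set V)).mkQ :=
    Finset.mem_image_of_mem _ hx0
  rw [Finset.card_erase_of_mem hmem, Finset.card_product,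
    Finset.card_erase_of_mem (Finset.mem_univ _), Finset.card_univ] at hcount
  have h3 : (Fintype.card F - 1) * A'.card ≤ (Fintype.card F - 1) * ρ * (d + 1) := by
    rw [mul_assoc]
    exact Nat.mul_le_mul_left _ hcard
  omega

end MPed7341.KM
end

section
/-
MP_ed7341_co, all m, module SUM: summation over the directions (helper49).
-/
set_option autoImplicit false

namespace MPed7341.KM

open Submodule Finset

namespace SUMM

open Classical in
/-- a class modulo a line has at most `q` elements. -/
theorem class_card {F : Type} [Field F] [Fintype F] {V : Type} [AddCommGroup V] [Module F V]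
    (S : Finset V) (h : V) (b : V ⧸ span F {h}) :
    (S.filter (fun s => (span F {h}).mkQ s = b)).card ≤ Fintype.card F := by
  by_cases hne : (S.filter (fun s => (span F {h}).mkQ s = b)).Nonempty
  · obtain ⟨s0, hs0⟩ := hne
    rw [mem_filter] at hs0
    have hsub : S.filter (fun s => (span F {h}).mkQ s = b) ⊆
        (univ : Finset F).image (fun c => s0 + c • h) := by
      intro s hs
      rw [mem_filter] at hs
      have h1 : (span F {h}).mkQ s0 = (span F {h}).mkQ s := by rw [hs0.2, hs.2]
      have h2 : s - s0 ∈ span F {h} := by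
        rw [← Submodule.ker_mkQ (span F {h}), LinearMap.mem_ker, map_sub, h1, sub_self]
      obtain ⟨c, hc⟩ := Submodule.mem_span_singleton.1 h2
      refine mem_image.2 ⟨c, mem_univ _, ?_⟩
      rw [hc]; abel
    exact (card_le_card hsub).trans card_image_le
  · rw [not_nonempty_iff_eq_empty] at hne
    rw [hne]; simp

open Classical in
/-- pairs in the same class. -/
theorem pairs_card {F : Type} [Field F] [Fintype F] {V : Type} [AddCommGroup V] [Module F V]
    (S : Finset V) (h : V) :
    ((S ×ˢ S).filter (fun p => p.1 ≠ p.2 ∧ p.1 - p.2 ∈ span F {h})).card ≤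
      Fintype.card F * (S.card - (S.image (span F {h}).mkQ).card) := by
  set f : V →ₗ[F] V ⧸ span F {h} := (span F {h}).mkQ with hf
  have h1 : ((S ×ˢ S).filter (fun p => p.1 ≠ p.2 ∧ p.1 - p.2 ∈ span F {h})).card =
      ∑ b ∈ S.image f, (((S ×ˢ S).filter (fun p => p.1 ≠ p.2 ∧ p.1 - p.2 ∈ span F {h})).filter
        (fun p => f p.1 = b)).card := by
    refine card_eq_sum_card_fiberwise ?_
    intro p hp
    rw [mem_coe, mem_filter, mem_product] at hp
    exact mem_coe.2 (mem_image_of_mem _ hp.1.1)
  have h2 : ∀ b ∈ S.image f, (((S ×ˢ S).filter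
      (fun p => p.1 ≠ p.2 ∧ p.1 - p.2 ∈ span F {h})).filter (fun p => f p.1 = b)).card ≤
      Fintype.card F * ((S.filter (fun s => f s = b)).card - 1) := by
    intro b _
    have hsub : ((S ×ˢ S).filter (fun p => p.1 ≠ p.2 ∧ p.1 - p.2 ∈ span F {h})).filter
        (fun p => f p.1 = b) ⊆ (S.filter (fun s => f s = b)).offDiag := by
      intro p hp
      rw [mem_filter, mem_filter, mem_product] at hp
      obtain ⟨⟨⟨hp1, hp2⟩, hne, hm⟩, hb⟩ := hp
      rw [mem_offDiag, mem_filter, mem_filter]
      refine ⟨⟨hp1, hb⟩, ⟨hp2, ?_⟩, hne⟩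
      rw [← hb]
      have : f (p.1 - p.2) = 0 := by
        rw [← LinearMap.mem_ker, Submodule.ker_mkQ]; exact hm
      rw [map_sub, sub_eq_zero] at this
      exact this.symm
    refine (card_le_card hsub).trans ?_
    rw [offDiag_card, ← Nat.mul_sub_one]
    exact Nat.mul_le_mul_right _ (class_card S h b)
  rw [h1]
  refine (sum_le_sum h2).trans ?_
  rw [← mul_sum]
  refine Nat.mul_le_mul_left _ ?_
  have h3 : ∑ b ∈ S.image f, ((S.filter (fun s => f s = b)).card - 1) =
      ∑ b ∈ S.image f, (S.filter (fun s => f s = b)).card - ∑ b ∈ S.image f, 1 := by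
    refine sum_tsub_distrib _ ?_
    intro b hb
    obtain ⟨s, hs, hsb⟩ := mem_image.1 hb
    exact card_pos.2 ⟨s, mem_filter.2 ⟨hs, hsb⟩⟩
  rw [h3, ← card_eq_sum_card_image f S, sum_const, smul_eq_mul, mul_one]

/-- an adjacent pair of `φ = 1` determines an element of `E ∩ ker φ`. -/
theorem adj_dir {F : Type} [Field F] {V : Type} [AddCommGroup V] [Module F V] (E : Finset V)
    (φ : V →ₗ[F] F) (s t : V) (hs : φ s = 1) (ht : φ t = 1) (hst : Adj F E s t) :
    ∃ h ∈ E, h ≠ 0 ∧ φ h = 0 ∧ span F {s - t} = span F {h} := by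
  obtain ⟨hne, e, he, c, hc, hm⟩ := hst
  have heq : e = c • (s - t) := by
    rw [Submodule.mem_bot, sub_eq_zero] at hm; exact hm
  refine ⟨e, he, ?_, ?_, ?_⟩
  · rw [heq]
    exact smul_ne_zero hc (sub_ne_zero.2 hne)
  · rw [heq, map_smul, map_sub, hs, ht, sub_self, smul_zero]
  · rw [heq]
    exact (Submodule.span_singleton_smul_eq (IsUnit.mk0 c hc) (s - t)).symm

end SUMM

open Classical in
theorem SUM : SpecSUM := by
  intro F _ _ V _ _ M E φ S hS hyp hec
  set A : Finset (V × V) := (S ×ˢ S).filter (fun p => Adj F E p.1 p.2) with hA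
  have hAec : ec F E S = A.card := rfl
  set T : Finset (V × V × V) := (S ×ˢ S ×ˢ S).filter (fun p => Adj F E p.1 p.2.1 ∧
    Adj F E p.1 p.2.2 ∧ Adj F E p.2.1 p.2.2 ∧
    LinearIndependent F ![p.2.1 - p.1, p.2.2 - p.1]) with hT
  let f : V × V → Submodule F V := fun p => span F {p.1 - p.2}
  let g : V × V × V → Submodule F V := fun p => span F {p.2.1 - p.2.2}
  have hPne : (A.image f).Nonempty := by
    rw [image_nonempty, ← card_pos, ← hAec]; exact hec
  have hq : 0 < Fintype.card F := Fintype.card_pos
  -- each direction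
  have hdir : ∀ P ∈ A.image f, M * (A.filter (fun p => f p = P)).card <
      Fintype.card F * (T.filter (fun p => g p = P)).card := by
    intro P hP
    obtain ⟨p, hp, rfl⟩ := mem_image.1 hP
    rw [hA, mem_filter, mem_product] at hp
    obtain ⟨⟨hp1, hp2⟩, hadj⟩ := hp
    obtain ⟨h, hE, h0, hφ, hspan⟩ := SUMM.adj_dir E φ p.1 p.2 (hS _ hp1) (hS _ hp2) hadj
    have hfp : f p = span F {h} := hspan
    rw [hfp]
    have h1 : (A.filter (fun p => f p = span F {h})).card ≤
        Fintype.card F * (S.card - (S.image (span F {h}).mkQ).card) := by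
      refine (card_le_card ?_).trans (SUMM.pairs_card S h)
      intro x hx
      rw [mem_filter, hA, mem_filter] at hx
      obtain ⟨⟨hxS, hxa⟩, hxf⟩ := hx
      rw [mem_filter]
      refine ⟨hxS, hxa.1, ?_⟩
      rw [← hxf]
      exact Submodule.mem_span_singleton_self _
    have h2 := hyp h hE h0 hφ
    have h3 : ((S ×ˢ S ×ˢ S).filter (fun p => Adj F E p.1 p.2.1 ∧ Adj F E p.1 p.2.2 ∧
          p.2.1 ≠ p.2.2 ∧ p.2.1 - p.2.2 ∈ span F {h} ∧ p.1 - p.2.1 ∉ span F {h})).card ≤
        (T.filter (fun p => g p = span F {h})).card := by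
      refine card_le_card ?_
      intro x hx
      rw [mem_filter] at hx
      obtain ⟨hxS, ha1, ha2, hne, hm, hnm⟩ := hx
      have hsub0 : x.2.1 - x.2.2 ≠ 0 := sub_ne_zero.2 hne
      obtain ⟨c, hc⟩ := Submodule.mem_span_singleton.1 hm
      have hc0 : c ≠ 0 := by
        rintro rfl
        rw [zero_smul] at hc
        exact hsub0 hc.symm
      rw [mem_filter, hT, mem_filter]
      refine ⟨⟨hxS, ha1, ha2, ⟨hne, h, hE, c⁻¹, inv_ne_zero hc0, ?_⟩, ?_⟩, ?_⟩
      · rw [← hc, smul_smul, inv_mul_cancel₀ hc0, one_smul, sub_self]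
        exact Submodule.zero_mem _
      · rw [LinearIndependent.pair_iff]
        intro a b hab
        have hab' : (a + b) • (x.2.1 - x.1) - b • (x.2.1 - x.2.2) = 0 := by
          rw [← hab]; module
        have hab0 : a + b = 0 := by
          by_contra hne0
          apply hnm
          have : x.1 - x.2.1 = -((a + b)⁻¹ • b • (x.2.1 - x.2.2)) := by
            rw [← sub_eq_zero.1 hab', smul_smul, inv_mul_cancel₀ hne0, one_smul]; abel
          rw [this]
          exact Submodule.neg_mem _ (Submodule.smul_mem _ _ (Submodule.smul_mem _ _ hm))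
        rw [hab0, zero_smul, zero_sub, neg_eq_zero, smul_eq_zero] at hab'
        have hb : b = 0 := hab'.resolve_right hsub0
        refine ⟨?_, hb⟩
        rw [hb, add_zero] at hab0
        exact hab0
      · show span F {x.2.1 - x.2.2} = span F {h}
        rw [← hc]
        exact Submodule.span_singleton_smul_eq (IsUnit.mk0 c hc0) h
    calc M * (A.filter (fun p => f p = span F {h})).card
        ≤ M * (Fintype.card F * (S.card - (S.image (span F {h}).mkQ).card)) :=
          Nat.mul_le_mul_left _ h1
      _ = Fintype.card F * (M * (S.card - (S.image (span F {h}).mkQ).card)) := by ring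
      _ < Fintype.card F * _ := Nat.mul_lt_mul_of_pos_left h2 hq
      _ ≤ Fintype.card F * (T.filter (fun p => g p = span F {h})).card :=
          Nat.mul_le_mul_left _ h3
  have hsumA : A.card = ∑ P ∈ A.image f, (A.filter (fun p => f p = P)).card :=
    card_eq_sum_card_image f A
  have hsumT : ∑ P ∈ A.image f, (T.filter (fun p => g p = P)).card ≤ T.card := by
    rw [sum_card_fiberwise_eq_card_filter]
    exact card_filter_le _ _
  calc M * ec F E S = ∑ P ∈ A.image f, M * (A.filter (fun p => f p = P)).card := by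
        rw [hAec, hsumA, mul_sum]
    _ < ∑ P ∈ A.image f, Fintype.card F * (T.filter (fun p => g p = P)).card :=
        sum_lt_sum_of_nonempty hPne hdir
    _ = Fintype.card F * ∑ P ∈ A.image f, (T.filter (fun p => g p = P)).card := by
        rw [mul_sum]
    _ ≤ Fintype.card F * T.card := Nat.mul_le_mul_left _ hsumT

end MPed7341.KM
end

section
/-
MP_ed7341_co, all m: module TOP (an element with few long lines).
-/
set_option autoImplicit false

namespace MPed7341.KM

open Submodule Finset

namespace TOPM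

variable {F : Type} [Field F] {V : Type} [AddCommGroup V] [Module F V]

lemma rk_hask (k : ℕ) (A X : Finset V) (ψ : V →ₗ[F] F)
    (hX : ∀ x ∈ X, ∃ c : F, c ≠ 0 ∧ ∃ a ∈ A, x = c • a)
    (h : RK F (k + 2) A ψ X) : HasK F (k + 3) A := by
  obtain ⟨C, s, hCA, _, hsX, hind, hhit⟩ := h
  have hit0 : ∀ i, Hit (span F (C : Set V)) A (s i) ∧ Hit (span F (C : Set V)) A (-(s i)) := by
    intro i
    obtain ⟨c, hc, a, ha, hx⟩ := hX _ (hsX i)
    refine ⟨⟨a, ha, c⁻¹, inv_ne_zero hc, ?_⟩, ⟨a, ha, -c⁻¹, neg_ne_zero.2 (inv_ne_zero hc), ?_⟩⟩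
    · rw [hx, smul_smul, inv_mul_cancel₀ hc, one_smul, sub_self]
      exact zero_mem _
    · rw [hx, neg_smul, smul_neg, neg_neg, smul_smul, inv_mul_cancel₀ hc, one_smul, sub_self]
      exact zero_mem _
  refine ⟨C, Fin.cons 0 s, hCA, ?_, ?_⟩
  · intro a ha hmem
    rw [Fin.sum_univ_succ] at hmem ha
    simp only [Fin.cons_zero, smul_zero, zero_add, Fin.cons_succ] at hmem
    have h1 := hind (fun i => a i.succ) hmem
    have h2 : ∀ i : Fin (k + 2), a i.succ = 0 := fun i => congrFun h1 i
    funext i
    refine Fin.cases ?_ (fun j => ?_) i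
    · simp only [h2, Finset.sum_const_zero, add_zero] at ha
      simpa using ha
    · simpa using h2 j
  · intro i j
    refine Fin.cases ?_ (fun i' => ?_) i
    · refine Fin.cases ?_ (fun j' => ?_) j
      · intro h; exact absurd rfl h
      · intro _
        simp only [Fin.cons_zero, Fin.cons_succ, zero_sub]
        exact (hit0 j').2
    · refine Fin.cases ?_ (fun j' => ?_) j
      · intro _
        simp only [Fin.cons_zero, Fin.cons_succ, sub_zero]
        exact (hit0 i').1
      · intro hne
        simp only [Fin.cons_succ]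
        exact hhit i' j' (fun h => hne (by rw [h]))

open Classical in
/-- the second points. -/
noncomputable def BB (A : Finset V) (a : V) : Finset V :=
  (A.erase a).filter (fun b => ∃ b' ∈ A.erase a, b' ≠ b ∧ b' ∈ span F {a} ⊔ span F {b})

open Classical in
lemma card_BB (A : Finset V) (a : V) :
    (A.erase a).card ≤ ncl (span F {a}) (A.erase a) + (BB (F := F) A a).card := by
  have h1 : ((A.erase a) \ BB (F := F) A a).card ≤ ncl (span F {a}) (A.erase a) := by
    unfold ncl
    have h2 : ((A.erase a) \ BB (F := F) A a).card =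
        (((A.erase a) \ BB (F := F) A a).image (fun v => span F {a} ⊔ span F {v})).card := by
      symm
      apply Finset.card_image_of_injOn
      intro b1 hb1 b2 hb2 h12
      by_contra hne
      simp only [Finset.coe_sdiff, Set.mem_sdiff, Finset.mem_coe] at hb1 hb2
      apply hb1.2
      unfold BB
      rw [Finset.mem_filter]
      refine ⟨hb1.1, b2, hb2.1, fun h => hne h.symm, ?_⟩
      have h3 : b2 ∈ span F {a} ⊔ span F {b2} :=
        (le_sup_right : span F {b2} ≤ span F {a} ⊔ span F {b2}) (mem_span_singleton_self b2)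
      have h12' : span F {a} ⊔ span F {b1} = span F {a} ⊔ span F {b2} := h12
      rw [h12']
      exact h3
    rw [h2]
    exact Finset.card_le_card (Finset.image_subset_image Finset.sdiff_subset)
  have h4 : (BB (F := F) A a) ⊆ A.erase a := by
    unfold BB; exact Finset.filter_subset _ _
  have h5 := Finset.card_sdiff_add_card_eq_card h4
  omega

lemma exists_y (A : Finset V) (hA : Simple F A) (a : V) (ha : a ∈ A) (c : F) (hc : c ≠ 0) (b : V)
    (hb : b ∈ BB (F := F) A a) :
    ∃ μ : F, μ ≠ 0 ∧ LinearIndependent F ![c • a, μ • b] ∧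
      Hit (⊥ : Submodule F V) A (c • a - μ • b) := by
  classical
  unfold BB at hb
  rw [Finset.mem_filter] at hb
  obtain ⟨hbA, b', hb'A, hne, hmem⟩ := hb
  rw [Finset.mem_erase] at hbA hb'A
  rw [Submodule.mem_sup] at hmem
  obtain ⟨u, hu, v, hv, huv⟩ := hmem
  rw [mem_span_singleton] at hu hv
  obtain ⟨α, rfl⟩ := hu
  obtain ⟨β, rfl⟩ := hv
  have hα : α ≠ 0 := by
    rintro rfl
    rw [zero_smul, zero_add] at huv
    exact hne (hA.2 b hbA.2 b' hb'A.2 β huv.symm)
  have hβ : β ≠ 0 := by
    rintro rfl
    rw [zero_smul, add_zero] at huv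
    exact hb'A.1 (hA.2 a ha b' hb'A.2 α huv.symm)
  have ha0 : a ≠ 0 := fun h => hA.1 (h ▸ ha)
  have hb0 : b ≠ 0 := fun h => hA.1 (h ▸ hbA.2)
  set μ : F := -(c * β / α) with hμdef
  have hμ : μ ≠ 0 := by
    rw [hμdef]
    exact neg_ne_zero.2 (div_ne_zero (mul_ne_zero hc hβ) hα)
  refine ⟨μ, hμ, ?_, b', hb'A.2, α / c, div_ne_zero hα hc, ?_⟩
  · rw [LinearIndependent.pair_iff]
    intro s t hst
    have h1 : (t * μ) • b = (-(s * c)) • a := by
      rw [smul_smul, smul_smul] at hst
      have := eq_neg_of_add_eq_zero_right hst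
      rw [this, neg_smul]
    by_cases ht : t = 0
    · subst ht
      rw [zero_smul, add_zero, smul_smul] at hst
      rcases smul_eq_zero.1 hst with h | h
      · rcases mul_eq_zero.1 h with h | h
        · exact ⟨h, rfl⟩
        · exact absurd h hc
      · exact absurd h ha0
    · exfalso
      have htm : t * μ ≠ 0 := mul_ne_zero ht hμ
      have h2 : b = ((t * μ)⁻¹ * (-(s * c))) • a := by
        rw [← smul_smul, ← h1, smul_smul, inv_mul_cancel₀ htm, one_smul]
      exact hbA.1 (hA.2 a ha b hbA.2 _ h2)
  · have h3 : b' - (α / c) • (c • a - μ • b) = 0 := by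
      rw [← huv, smul_sub, smul_smul, smul_smul, div_mul_cancel₀ _ hc, hμdef]
      have h4 : α / c * -(c * β / α) = -β := by
        field_simp
      rw [h4, neg_smul]
      abel
    rw [h3]
    exact zero_mem _

end TOPM

open Classical in
theorem TOP (hPSI : SpecPSI) (hMAIN : SpecMAIN) : SpecTOP := by
  intro F _ _ V _ _ _ k d A hA hne hK hSh
  set q := Fintype.card F with hq
  set N := NN q k d with hN
  set X := cone F A with hXdef
  have hX : ∀ x ∈ X, ∃ c : F, c ≠ 0 ∧ ∃ a ∈ A, x = c • a := by
    intro x hx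
    rw [hXdef] at hx
    unfold cone at hx
    rw [Finset.mem_image] at hx
    obtain ⟨p, hp, hpx⟩ := hx
    rw [Finset.mem_product, Finset.mem_filter, Finset.mem_filter] at hp
    exact ⟨p.1, hp.1.2, p.2, hp.2.1, hpx.symm⟩
  have hXmem : ∀ c : F, c ≠ 0 → ∀ a ∈ A, c • a ∈ X := by
    intro c hc a ha
    rw [hXdef]
    unfold cone
    rw [Finset.mem_image]
    refine ⟨(c, a), ?_, rfl⟩
    rw [Finset.mem_product, Finset.mem_filter, Finset.mem_filter]
    exact ⟨⟨Finset.mem_univ _, hc⟩, ha, fun h => hA.1 (h ▸ ha)⟩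
  have hcardF : ((univ : Finset F).filter (fun c => c ≠ 0)).card = q - 1 := by
    rw [Finset.filter_ne' univ (0 : F), Finset.card_erase_of_mem (Finset.mem_univ _),
      Finset.card_univ]
  have hXcard : X.card ≤ (q - 1) * A.card := by
    rw [hXdef]
    unfold cone
    refine (Finset.card_image_le).trans ?_
    rw [Finset.card_product, hcardF]
    exact Nat.mul_le_mul_left _ (Finset.card_le_card (Finset.filter_subset _ _))
  have hP := hPSI F V X (fun x y => Hit (⊥ : Submodule F V) A (x - y)) N (by
    intro ψ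
    have h1 : ∀ s ∈ cut F ψ X, ψ s = 1 := by
      intro s hs
      unfold cut at hs
      exact (Finset.mem_filter.1 hs).2
    have h2 : ¬ RK F (k + 2) A ψ (cut F ψ X) := by
      intro h
      apply hK
      refine TOPM.rk_hask k A (cut F ψ X) ψ ?_ h
      intro x hx
      unfold cut at hx
      exact hX x (Finset.mem_filter.1 hx).1
    have h3 := hMAIN F k d V A ψ (cut F ψ X) h1 (hSh ψ) h2
    unfold ec at h3
    simp only [Adj] at h3
    convert h3 using 3)
  by_contra hcon
  push Not at hcon
  have hBB : ∀ a ∈ A, q * N + 1 ≤ (TOPM.BB (F := F) A a).card := by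
    intro a ha
    have h1 := TOPM.card_BB (F := F) A a
    have h2 := hcon a ha
    omega
  -- the injection
  have hy : ∀ (c : F) (a b : V), ∃ μ : F, (c ≠ 0 → a ∈ A → b ∈ TOPM.BB (F := F) A a →
      μ ≠ 0 ∧ LinearIndependent F ![c • a, μ • b] ∧
        Hit (⊥ : Submodule F V) A (c • a - μ • b)) := by
    intro c a b
    by_cases h : c ≠ 0 ∧ a ∈ A ∧ b ∈ TOPM.BB (F := F) A a
    · obtain ⟨μ, h1⟩ := TOPM.exists_y A hA a h.2.1 c h.1 b h.2.2
      exact ⟨μ, fun _ _ _ => h1⟩
    · exact ⟨0, fun h1 h2 h3 => absurd ⟨h1, h2, h3⟩ h⟩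
  choose μ hμ using hy
  have hT : (((univ : Finset F).filter (fun c => c ≠ 0)) ×ˢ
      (A.sigma (fun a => TOPM.BB (F := F) A a))).card ≤
      ((X ×ˢ X).filter (fun p => LinearIndependent F ![p.1, p.2] ∧
        Hit (⊥ : Submodule F V) A (p.1 - p.2))).card := by
    refine Finset.card_le_card_of_injOn
      (fun t => (t.1 • t.2.1, μ t.1 t.2.1 t.2.2 • t.2.2)) ?_ ?_
    · intro t ht
      rw [Finset.mem_coe, Finset.mem_product, Finset.mem_filter, Finset.mem_sigma] at ht
      obtain ⟨⟨_, hc⟩, ha, hb⟩ := ht
      obtain ⟨h1, h2, h3⟩ := hμ t.1 t.2.1 t.2.2 hc ha hb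
      have hbA : t.2.2 ∈ A := by
        unfold TOPM.BB at hb
        exact Finset.mem_of_mem_erase (Finset.mem_filter.1 hb).1
      rw [Finset.mem_coe, Finset.mem_filter, Finset.mem_product]
      exact ⟨⟨hXmem _ hc _ ha, hXmem _ h1 _ hbA⟩, h2, h3⟩
    · intro t ht t' ht' htt
      rw [Finset.mem_coe, Finset.mem_product, Finset.mem_filter, Finset.mem_sigma] at ht ht'
      obtain ⟨⟨_, hc⟩, ha, hb⟩ := ht
      obtain ⟨⟨_, hc'⟩, ha', hb'⟩ := ht'
      obtain ⟨h1, _, _⟩ := hμ t.1 t.2.1 t.2.2 hc ha hb
      obtain ⟨h1', _, _⟩ := hμ t'.1 t'.2.1 t'.2.2 hc' ha' hb'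
      have hbA : t.2.2 ∈ A := by
        unfold TOPM.BB at hb
        exact Finset.mem_of_mem_erase (Finset.mem_filter.1 hb).1
      have hbA' : t'.2.2 ∈ A := by
        unfold TOPM.BB at hb'
        exact Finset.mem_of_mem_erase (Finset.mem_filter.1 hb').1
      obtain ⟨c, a, b⟩ := t
      obtain ⟨c', a', b'⟩ := t'
      simp only [Prod.mk.injEq] at htt
      obtain ⟨e1, e2⟩ := htt
      have key : ∀ (r r' : F) (u v : V), r ≠ 0 → r' ≠ 0 → u ∈ A → v ∈ A → r • u = r' • v →
          u = v := by
        intro r r' u v _ hr' hu hv h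
        refine (hA.2 u hu v hv (r'⁻¹ * r) ?_).symm
        rw [← smul_smul, h, smul_smul, inv_mul_cancel₀ hr', one_smul]
      have haa : a = a' := key c c' a a' hc hc' ha ha' e1
      have hbb : b = b' := key _ _ b b' h1 h1' hbA hbA' e2
      subst haa
      subst hbb
      have hcc : c = c' := by
        have ha0 : a ≠ 0 := fun h => hA.1 (h ▸ ha)
        have h5 : (c - c') • a = 0 := by
          rw [sub_smul]
          have : c • a = c' • a := e1
          rw [this, sub_self]
        rcases smul_eq_zero.1 h5 with h | h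
        · exact sub_eq_zero.1 h
        · exact absurd h ha0
      rw [hcc]
  rw [Finset.card_product, hcardF, Finset.card_sigma] at hT
  have hsum : A.card * (q * N + 1) ≤ ∑ a ∈ A, (TOPM.BB (F := F) A a).card := by
    rw [← smul_eq_mul]
    exact Finset.card_nsmul_le_sum _ _ _ hBB
  have hq1 : 1 ≤ q - 1 := by
    have := Fintype.one_lt_card (α := F)
    omega
  have hApos : 1 ≤ A.card := Finset.card_pos.2 hne
  have h6 : (q - 1) * (A.card * (q * N + 1)) ≤ q * N * ((q - 1) * A.card) :=
    (Nat.mul_le_mul_left _ hsum).trans (hT.trans (hP.trans (Nat.mul_le_mul_left _ hXcard)))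
  have h7 : q * N * ((q - 1) * A.card) < (q - 1) * (A.card * (q * N + 1)) := by
    have h8 : (q - 1) * (A.card * (q * N + 1)) = q * N * ((q - 1) * A.card) + (q - 1) * A.card := by
      ring
    rw [h8]
    have : 1 ≤ (q - 1) * A.card := Nat.mul_pos hq1 hApos
    omega
  omega

end MPed7341.KM
end
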