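/-
MP_ed7341_co, all m: critical exponent of GF(q)-representable matroids with no M(K_m)-minor.
Definitions used by the modules (see Spec.lean).
-/
import Pool.Agent.Lib.MP_ed7341_co.Defs

set_option autoImplicit false

namespace MPed7341.KM

open Submodule Finset

section Defs

variable (F : Type) [Field F] {V : Type} [AddCommGroup V] [Module F V]

/-- The vector configuration `E` has an `M(K_m)`-minor: modulo the span of some `C ⊆ E` there are
affinely independent `w_1, ..., w_m` all of whose differences are represented by `E`. -/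
def HasK (m : ℕ) (E : Finset V) : Prop :=
  ∃ (C : Finset V) (w : Fin m → V), C ⊆ E ∧
    (∀ a : Fin m → F, ∑ i, a i = 0 → ∑ i, a i • w i ∈ span F (C : Set V) → a = 0) ∧
    ∀ i j, i ≠ j → Hit (span F (C : Set V)) E (w i - w j)

/-- Rooted clique: `n` points of `S`, linearly independent modulo the span of some `C ⊆ E` with
`C ⊆ ker φ`, all of whose differences are represented by `E`. -/
def RK (n : ℕ) (E : Finset V) (φ : V →ₗ[F] F) (S : Finset V) : Prop :=
  ∃ (C : Finset V) (s : Fin n → V), C ⊆ E ∧ (∀ c ∈ C, φ c = 0) ∧ (∀ i, s i ∈ S) ∧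
    (∀ a : Fin n → F, ∑ i, a i • s i ∈ span F (C : Set V) → a = 0) ∧
    ∀ i j, i ≠ j → Hit (span F (C : Set V)) E (s i - s j)

/-- adjacency: different, and the difference is represented by `E`. -/
def Adj (E : Finset V) (x y : V) : Prop := x ≠ y ∧ Hit (⊥ : Submodule F V) E (x - y)

open Classical in
/-- number of ordered adjacent pairs of `S`. -/
noncomputable def ec (E S : Finset V) : ℕ :=
  ((S ×ˢ S).filter (fun p => Adj F E p.1 p.2)).card

open Classical in
/-- shatter condition: contraction of `C` and restriction to a coset of `span (C ∪ J)`,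
`|J| = d + 1`, leaves fewer than `2 ^ (d+1)` points of `S`. -/
def Sh (d : ℕ) (E : Finset V) (φ : V →ₗ[F] F) (S : Finset V) : Prop :=
  ∀ C J : Finset V, C ⊆ E → J ⊆ E → (∀ x ∈ C ∪ J, φ x = 0) → Disjoint C J →
    LinearIndepOn F id ((C ∪ J : Finset V) : Set V) → J.card = d + 1 → ∀ v : V,
    ((S.filter (fun s => s - v ∈ span F ((C ∪ J : Finset V) : Set V))).image
      (span F (C : Set V)).mkQ).card < 2 ^ (d + 1)

open Classical in
/-- the vectors represented by `E`. -/
noncomputable def cone [Fintype F] (E : Finset V) : Finset V :=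
  ((univ.filter (fun c : F => c ≠ 0)) ×ˢ (E.filter (fun v => v ≠ 0))).image
    (fun p => p.1 • p.2)

open Classical in
/-- `X` restricted to `ψ = 1`. -/
noncomputable def cut (ψ : V →ₗ[F] F) (X : Finset V) : Finset V := X.filter (fun x => ψ x = 1)

end Defs

/-- the constants. -/
def NN (q : ℕ) : ℕ → ℕ → ℕ
  | 0, _ => 0
  | _ + 1, 0 => 0
  | k + 1, d + 1 => NN q (k + 1) d + q + q ^ 2 * NN q k (d + 1)
termination_by k d => (k, d)

/-- `E` is the union of `n` linearly independent sets (given by a colouring). -/
def Cov (F : Type) [Field F] {V : Type} [AddCommGroup V] [Module F V] (n : ℕ)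
    (E : Finset V) : Prop :=
  ∃ g : V → Fin n, ∀ j, LinearIndepOn F id {v : V | v ∈ E ∧ g v = j}

/-- numerical condition. -/
def Nu (q k d : ℕ) : Prop :=
  1 + (q - 1) * (2 * (q * NN q k d) + 1) * (d + 1) < 2 ^ (d + 1)

end MPed7341.KM
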