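/-
MP_ed7341_co, all m (helper55): every GF(q)-representable matroid without M(K_m)-minor has
critical exponent at most 2 (4 m L q^2)^(m-3) - 1, L = log_2 (q m) + 1.
Statements of the modules, complete proofs in the docstrings. q = card F throughout.
Module XXX = Pool/Agent/Lib/MP_ed7341_co/KM/XXX.lean, `import Pool.Agent.Lib.MP_ed7341_co.KM.Spec`,
namespace MPed7341.KM, own lemmas in namespace XXXM, main theorem named XXX : SpecXXX.
-/
import Pool.Agent.Lib.MP_ed7341_co.KM.Defs

set_option autoImplicit false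

namespace MPed7341.KM

open Submodule Finset

/-- MAP [60 lines]: minors of contractions are minors. Copy of MPed7341.specMap (Lib/MP_ed7341_co/Map.lean)
with a family `w : Fin m → V` in place of three vectors. `C = C0 ∪ C1`, `C1` lifts of `C'`;
`v ∈ span C ↔ π v ∈ span C'`. Also monotonicity in `E`. -/
def SpecMAP : Prop :=
  (∀ (F : Type) [Field F] (V V' : Type) [AddCommGroup V] [Module F V] [AddCommGroup V']
    [Module F V'] [DecidableEq V'] (m : ℕ) (π : V →ₗ[F] V') (C0 E : Finset V), C0 ⊆ E →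
    Function.Surjective π → LinearMap.ker π = span F (C0 : Set V) →
    HasK F m (E.image π) → HasK F m E) ∧
  (∀ (F : Type) [Field F] (V : Type) [AddCommGroup V] [Module F V] (m : ℕ) (A E : Finset V),
    A ⊆ E → HasK F m A → HasK F m E)

/-- MPR [60]: rooted version, contraction of one element `h` of `ker φ`. As MAP with `C0 = {h}`;
`s i` = a preimage in `S` of `s' i ∈ T ⊆ π S`; `φ c = φ' (π c) = 0` for the lifts `c`. -/
def SpecMPR : Prop :=
  ∀ (F : Type) [Field F] (V V' : Type) [AddCommGroup V] [Module F V] [AddCommGroup V']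
    [Module F V'] [DecidableEq V'] (n : ℕ) (π : V →ₗ[F] V') (h : V) (E S : Finset V)
    (T : Finset V') (φ : V →ₗ[F] F) (φ' : V' →ₗ[F] F), h ∈ E → φ h = 0 →
    LinearMap.ker π = span F {h} → φ' ∘ₗ π = φ → T ⊆ S.image π →
    RK F n (E.image π) φ' T → RK F n E φ S

/-- SHA [120]: contraction keeps `Sh d`. Given `C, J ⊆ π E` with `C ∪ J` independent in `V'`, choose
lifts `C1, J1 ⊆ E` (one preimage of each element, so `π` is injective on `C1 ∪ J1`, and
`C1 ∪ J1 ∪ {h}` is independent in `V`, `h ∉ C1 ∪ J1` because `π h = 0`). Apply the hypothesis to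
`C1 ∪ {h}`, `J1` and a preimage `v1` of `v` (if the filtered set is not empty take for `v1` a
preimage, `v` is then in the range of `π` modulo the span; or use surjectivity): the map
`class mod span (C1 ∪ {h})` of `s` `↦` `class mod span C` of `π s` is well defined (and bijective), so the
image for `(π E, π S)` has at most as many elements as the image for `(E, S)`. -/
def SpecSHA : Prop :=
  ∀ (F : Type) [Field F] (V V' : Type) [AddCommGroup V] [Module F V] [AddCommGroup V']
    [Module F V'] [DecidableEq V'] (d : ℕ) (π : V →ₗ[F] V') (h : V) (E S : Finset V)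
    (φ : V →ₗ[F] F) (φ' : V' →ₗ[F] F), h ∈ E → h ≠ 0 → φ h = 0 → Function.Surjective π →
    LinearMap.ker π = span F {h} → φ' ∘ₗ π = φ → Sh F d E φ S →
    Sh F d (E.image π) φ' (S.image π)

open Classical in
/-- SHB [150]: the multiple classes have `Sh d` if `S` has `Sh (d+1)`. Given `C, J ⊆ π E`,
`|J| = d + 1`, `C ∪ J` independent in `V'`: lifts `C1, J1 ⊆ E` as in SHA. Apply the hypothesis to
`C1`, `J1 ∪ {h}` (it has `d + 2` elements) and a preimage `v1` of `v`. Every class `c ∈ T` has two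
different `s, s' ∈ S` over it, `s - s'` is a nonzero multiple of `h`, so they are different modulo
`span C1` (as `h ∉ span C1`); classes `c, c'` different modulo `span C` give elements different
modulo `span (C1 ∪ {h})`. So twice the number for `(T, C, J)` is at most the number for
`(S, C1, J1 ∪ {h})`, which is `< 2 ^ (d+2)`. -/
def SpecSHB : Prop :=
  ∀ (F : Type) [Field F] (V V' : Type) [AddCommGroup V] [Module F V] [AddCommGroup V']
    [Module F V'] (d : ℕ) (π : V →ₗ[F] V') (h : V) (E S : Finset V) (T : Finset V')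
    (φ : V →ₗ[F] F) (φ' : V' →ₗ[F] F), h ∈ E → h ≠ 0 → φ h = 0 → Function.Surjective π →
    LinearMap.ker π = span F {h} → φ' ∘ₗ π = φ → Sh F (d + 1) E φ S → T ⊆ S.image π →
    (∀ c ∈ T, 2 ≤ (S.filter (fun s => π s = c)).card) → Sh F d (E.image π) φ' T

open Classical in
/-- CNT [150]: pure counting. `S` finite, `π : S → β` with fibres of size at most `q`, `R` a symmetric
irreflexive relation on `α`, `R'` a relation on `β` with `R s t, π s ≠ π t → R' (π s) (π t)`;
`B j` = the values with at least `j` preimages.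
Proof. For `a, b ∈ π S` let `e(a,b)` = number of `R`-pairs `(s,t)`, `π s = a`, `π t = b`.
`e(a,a) ≤ |a| (|a| - 1) ≤ q (|a| - 1)`, sum `q (|S| - |π S|)`. For `a ≠ b` with `e(a,b) ≥ 1`:
`(a,b)` is counted in the first term of the right side, and
`e(a,b) ≤ min(|a|,|b|) + Σ_{s ∈ a} (deg_b s - 1)^+ + Σ_{t ∈ b} (deg_a t - 1)^+`
(if `|a| ≤ |b|` then `e(a,b) = Σ_{s ∈ a} deg_b s ≤ |a| + Σ_{s ∈ a} (deg_b s - 1)^+`, and symmetrically),
`min(|a|,|b|) - 1 = #{j ∈ [2,q] : a, b ∈ B j}` (third term), and the sum over all ordered `a ≠ b` of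
the two last sums is `2 Σ_s Σ_{b ≠ π s} (deg_b s - 1)^+ ≤ Σ_s Σ_{b ≠ π s} deg_b s (deg_b s - 1)` = the last term.
Second statement: `Σ_{j=2}^q |B j| = Σ_a (|a| - 1)`. -/
def SpecCNT : Prop :=
  ∀ (α β : Type) (S : Finset α) (π : α → β) (R : α → α → Prop) (R' : β → β → Prop) (q : ℕ),
    (∀ s t, R s t → R t s) → (∀ s t, R s t → s ≠ t) →
    (∀ s ∈ S, ∀ t ∈ S, R s t → π s ≠ π t → R' (π s) (π t)) →
    (∀ b, (S.filter (fun s => π s = b)).card ≤ q) →
    ((S ×ˢ S).filter (fun p => R p.1 p.2)).card ≤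
      ((S.image π ×ˢ S.image π).filter (fun p => R' p.1 p.2)).card +
      q * (S.card - (S.image π).card) +
      ∑ j ∈ Finset.Icc 2 q,
        (((S.image π).filter (fun b => j ≤ (S.filter (fun s => π s = b)).card) ×ˢ
          (S.image π).filter (fun b => j ≤ (S.filter (fun s => π s = b)).card)).filter
            (fun p => R' p.1 p.2)).card +
      ((S ×ˢ S ×ˢ S).filter (fun p => R p.1 p.2.1 ∧ R p.1 p.2.2 ∧ p.2.1 ≠ p.2.2 ∧
        π p.2.1 = π p.2.2 ∧ π p.1 ≠ π p.2.1)).card ∧
    ∑ j ∈ Finset.Icc 2 q,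
        ((S.image π).filter (fun b => j ≤ (S.filter (fun s => π s = b)).card)).card =
      S.card - (S.image π).card

open Classical in
/-- PSI [120]: averaging over all functionals. `V` is finite. Let `Q` be the number of `ψ : V → F`.
For `x ≠ 0` exactly `Q / q` of them have `ψ x = 1` (none for `x = 0`), for linearly independent
`x, y` exactly `Q / q^2` have `ψ x = ψ y = 1`. Sum the hypothesis over all `ψ`:
`(Q/q^2) * LHS ≤ Σ_ψ #pairs(ψ) ≤ N Σ_ψ |cut ψ X| ≤ N |X| Q / q`. (In Lean: the map
`ψ ↦ (ψ x, ψ y)` is a surjective homomorphism onto `F × F`, all fibres have the same size.) -/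
def SpecPSI : Prop :=
  ∀ (F : Type) [Field F] [Fintype F] (V : Type) [AddCommGroup V] [Module F V]
    [Module.Finite F V] (X : Finset V) (R : V → V → Prop) (N : ℕ),
    (∀ ψ : V →ₗ[F] F,
      ((cut F ψ X ×ˢ cut F ψ X).filter (fun p => p.1 ≠ p.2 ∧ R p.1 p.2)).card ≤
        N * (cut F ψ X).card) →
    ((X ×ˢ X).filter (fun p => LinearIndependent F ![p.1, p.2] ∧ R p.1 p.2)).card ≤
      Fintype.card F * N * X.card

open Classical in
/-- LNK [200] (hypothesis PSI): few triangles. Otherwise there is `s ∈ S` with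
`t(s) > q N |X|`, where `X = {t - s : t ∈ S, Adj s t}` (`|X|` = degree of `s`, `Σ_s |X_s| = ec E S`)
and `t(s)` = number of pairs `(x, y) ∈ X^2`, `x, y` linearly independent, `Hit ⊥ E (x - y)`.
By PSI (with `R x y = Hit ⊥ E (x - y)`) there is `ψ` with more than `N |cut ψ X|` pairs `x ≠ y` in
`cut ψ X`, so `ec E2 (cut ψ X) > N |cut ψ X|` for `E2 = E.filter (φ e = 0)` (`X ⊆ ker φ`, so an element
`e = c (x - y)` has `φ e = 0`). `cut ψ X` has `Sh d` for `(E2, ψ)`: for `C, J ⊆ E2 ∩ ker ψ` the map
`x ↦ x + s` maps `{x ∈ cut ψ X : x - v ∈ span (C ∪ J)}` into `{t ∈ S : t - (v + s) ∈ span (C ∪ J)}` and keeps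
classes modulo `span C`. By the hypothesis `RK (k+2) E2 ψ (cut ψ X)` with some `C ⊆ E2`, `x_i`. Then
`C` and `s, s + x_0, ..., s + x_(k+1)` are `RK (k+3) E φ S`: differences `x_i` (Adj s (s + x_i)) and
`x_i - x_j`; a relation `a s + Σ a_i (s + x_i) ∈ span C ⊆ ker φ` gives with `φ s = 1`, `φ x_i = 0`
that `a + Σ a_i = 0`, so `Σ a_i x_i ∈ span C`, all `a_i = 0`. -/
def SpecLNK : Prop :=
  ∀ (F : Type) [Field F] [Fintype F] (V : Type) [AddCommGroup V] [Module F V]
    [Module.Finite F V] (k d N : ℕ),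
    (∀ (E : Finset V) (ψ : V →ₗ[F] F) (X : Finset V), (∀ x ∈ X, ψ x = 1) → Sh F d E ψ X →
      ¬ RK F (k + 2) E ψ X → ec F E X ≤ N * X.card) →
    ∀ (E : Finset V) (φ : V →ₗ[F] F) (S : Finset V), (∀ s ∈ S, φ s = 1) → Sh F d E φ S →
      ¬ RK F (k + 3) E φ S →
      ((S ×ˢ S ×ˢ S).filter (fun p => Adj F E p.1 p.2.1 ∧ Adj F E p.1 p.2.2 ∧
        Adj F E p.2.1 p.2.2 ∧ LinearIndependent F ![p.2.1 - p.1, p.2.2 - p.1])).card ≤
        Fintype.card F * N * ec F E S

open Classical in
/-- SUM [120]: summation over the directions. Let `P` run over the subspaces `span {s - t}`, `(s,t)`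
adjacent in `S` (not empty, as `ec > 0`); each is `span {h}` with `h ∈ E`, `h ≠ 0`, `φ h = 0`.
`ec = Σ_P #{(s,t) adjacent, span {s - t} = P} ≤ Σ_P q (|S| - |S mod P|)` (a class modulo `P` with `l ≤ q`
elements contains `l (l-1) ≤ q (l-1)` ordered pairs), and the triples of the hypothesis for the
different `P` are disjoint sets of the triples in the conclusion (`t - u ∈ P`, `s - t ∉ P` imply
`t - s, u - s` independent; `Adj t u` because `t - u` is a nonzero multiple of `h ∈ E`). -/
def SpecSUM : Prop :=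
  ∀ (F : Type) [Field F] [Fintype F] (V : Type) [AddCommGroup V] [Module F V]
    (M : ℕ) (E : Finset V) (φ : V →ₗ[F] F) (S : Finset V), (∀ s ∈ S, φ s = 1) →
    (∀ h ∈ E, h ≠ 0 → φ h = 0 →
      M * (S.card - (S.image (span F {h}).mkQ).card) <
        ((S ×ˢ S ×ˢ S).filter (fun p => Adj F E p.1 p.2.1 ∧ Adj F E p.1 p.2.2 ∧
          p.2.1 ≠ p.2.2 ∧ p.2.1 - p.2.2 ∈ span F {h} ∧ p.1 - p.2.1 ∉ span F {h})).card) →
    0 < ec F E S →
    M * ec F E S < Fintype.card F *
      ((S ×ˢ S ×ˢ S).filter (fun p => Adj F E p.1 p.2.1 ∧ Adj F E p.1 p.2.2 ∧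
        Adj F E p.2.1 p.2.2 ∧ LinearIndependent F ![p.2.1 - p.1, p.2.2 - p.1])).card

/-- MAIN [200] (hypotheses MPR, SHA, SHB, CNT, LNK, SUM): the pair count. Induction on `k`, then `d`,
then the dimension of `V`. `k = 0`: an adjacent pair is `RK 2`, so `ec = 0`. `d = 0`: `Sh 0` with
`C = ∅`, `J = {h}` shows that no two points of `S` differ by a multiple of `h ∈ E`, so `ec = 0`.
Step to `(k+1, d+1)`: suppose `ec E S > N |S|`, `N = NN (k+1) (d+1)`. For `h ∈ E`, `h ≠ 0`, `φ h = 0` let
`π : V → V / span h`, `exc = |S| - |π S|`. Induction (dimension): `ec (π E) (π S) ≤ N |π S|`; induction (d):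
`ec (π E) (B j) ≤ NN (k+1) d |B j|` for `j ≥ 2`. CNT (R = Adj E, R' = Adj (π E)):
`ec E S ≤ N |π S| + q exc + NN (k+1) d exc + T_h`, so `T_h > q^2 NN k (d+1) exc`. SUM with
`M = q^2 NN k (d+1)`: `q T > M ec`, so `T > q NN k (d+1) ec`, contradiction to LNK (with
`N = NN k (d+1)`, hypothesis of LNK by induction on `k`). -/
def SpecMAIN : Prop :=
  ∀ (F : Type) [Field F] [Fintype F] (k d : ℕ) (V : Type) [AddCommGroup V] [Module F V]
    [Module.Finite F V] (E : Finset V) (φ : V →ₗ[F] F) (S : Finset V), (∀ s ∈ S, φ s = 1) →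
    Sh F d E φ S → ¬ RK F (k + 2) E φ S → ec F E S ≤ NN (Fintype.card F) k d * S.card

open Classical in
/-- TOP [200] (hypotheses PSI, MAIN): an element with few long lines. Let `X = cone A`,
`|X| = (q-1) |A|`. For every `ψ`: `¬ RK (k+2) A ψ (cut ψ X)` (otherwise `w = (0, x_0, ..., x_(k+1))`
is `HasK (k+3)`), so by MAIN `ec A (cut ψ X) ≤ N |cut ψ X|`, `N = NN q k d`, and by PSI (`R x y = Hit ⊥ A (x-y)`)
the number `P` of pairs `(x,y) ∈ X^2`, independent, `x - y` represented by `A`, is `≤ q N |X|`. On the other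
hand for `x = c a` and every `b ∈ A.erase a` such that some `b' ∈ A.erase a`, `b' ≠ b` is on the line
`a b` there are `y = multiple of b` with `x - y` a multiple of `b'` (`b' = α a + β b`, `α, β ≠ 0`), different
`b` give different `y`; the number of such `b` is at least `|A.erase a| - ncl (span a) (A.erase a)` (a class
with one element contributes 0 to the difference, a class with `l ≥ 2` elements `l - 1 ≤ l`). So if the
conclusion fails for all `a` then `P ≥ (q-1) |A| (q N + 1) > q N |X|`. -/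
def SpecTOP : Prop :=
  ∀ (F : Type) [Field F] [Fintype F] (V : Type) [AddCommGroup V] [Module F V]
    [Module.Finite F V] (k d : ℕ) (A : Finset V), Simple F A → A.Nonempty →
    ¬ HasK F (k + 3) A → (∀ ψ : V →ₗ[F] F, Sh F d A ψ (cut F ψ (cone F A))) →
    ∃ a ∈ A, (A.erase a).card ≤ ncl (span F {a}) (A.erase a) +
      Fintype.card F * NN (Fintype.card F) k d

/-- SHZ [200] (hypothesis MAP): the shatter condition from the bound for contractions. Given `C, J, v`
as in `Sh`, `Z` = set of classes modulo `span C` of the `x ∈ cut ψ (cone A)` with `x - v ∈ span (C ∪ J)`.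
Assume `Z` not empty, `x0` one such vector, `x0 = c0 a0`, `a0 ∈ A`, `D = C ∪ {a0}` (independent as
`ψ x0 = 1`, `ψ = 0` on `C`). `A_U = {a ∈ A : a ∈ span (C ∪ J ∪ {x0})}`, `π : V → V / span D`; let `A'` be
a simple set of representatives of the nonzero vectors of `π A_U`. `rk A' ≤ |J| = d + 1` and
`rk A' < rk A` (`rk (C ∪ J ∪ ..)`: `span A' = π (span A_U)`, `dim π(span A_U) = dim span A_U - |D|`,
as `D ⊆ span A_U`, `|D| ≥ 1`). By MAP `¬ HasK m A'`, so `|A'| ≤ ρ (d+1)`. Every class `z ∈ Z` other than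
the class of `x0` has a representative `x = c a`, `a ∈ A_U`, `π x ≠ 0`
(`x - x0 ∈ span (C ∪ J)`, not in `span C`; and `x ∈ span D` with `ψ x = ψ x0 = 1` would give
`x - x0 ∈ span C`), so a point of `A'`; at most `q - 1` classes `z` have the same point: `π x' = t π x` means
`x' = t x + u x0` modulo `span C`, `ψ` gives `u = 1 - t`, and `t ≠ 0`. So `|Z| ≤ 1 + (q-1) ρ (d+1)`. -/
def SpecSHZ : Prop :=
  ∀ (F : Type) [Field F] [Fintype F] (V : Type) [AddCommGroup V] [Module F V]
    [Module.Finite F V] (m d ρ : ℕ) (A : Finset V), ¬ HasK F m A →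
    1 + (Fintype.card F - 1) * ρ * (d + 1) < 2 ^ (d + 1) →
    (∀ (V' : Type) [AddCommGroup V'] [Module F V'] [Module.Finite F V'] (A' : Finset V'),
      Simple F A' → ¬ HasK F m A' → rk F A' < rk F A → A'.card ≤ ρ * rk F A') →
    ∀ ψ : V →ₗ[F] F, Sh F d A ψ (cut F ψ (cone F A))

/-- LIF [200]: lifting a partition into independent sets over the contraction of `a`.
Call `v ~ v'` (`v, v' ∈ A.erase a`) if `span {a} ⊔ span {v} = span {a} ⊔ span {v'}`; classes = lines
through `a`. Choose one element of each class, `A'` = the set of their images, simple; `g' : A' → Fin (2K+1)`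
from the hypothesis. Merged classes = classes with `≥ 2` elements; the number of extra elements
`Σ (|class| - 1)` is at most `K`, so at most `K` colours are `home` colours `g'(p)` of merged
classes, at least `K + 1` colours are not; give every extra element (`|class| - 1` for each class) its own
non-home colour and one further non-home colour to `a`. In a non-home colour `j` the set `I_j` consists
of elements alone in their class, so it is fixed, and `I_j ∪ {a}` is independent. Inside a merged class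
`p = {e_0, ..., e_l}` with the colours `j_1, ..., j_l`: for `i = 1..l`, among the remaining (at least 2)
elements at most one is in `span I_(j_i)` (two of them span `a`, which is not in `span I_j`); put another one
in colour `j_i` (`I_j ∪ {e}` is independent). The last remaining element gets the home colour. A home
colour receives one element of each class only, so it is independent (modulo `a`). -/
def SpecLIF : Prop :=
  ∀ (F : Type) [Field F] (V V' : Type) [AddCommGroup V] [Module F V] [AddCommGroup V']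
    [Module F V'] [DecidableEq V] [DecidableEq V'] (K : ℕ) (A : Finset V) (a : V)
    (π : V →ₗ[F] V'), Simple F A → a ∈ A → LinearMap.ker π = span F {a} →
    (A.erase a).card ≤ ncl (span F {a}) (A.erase a) + K →
    (∀ A' : Finset V', A' ⊆ (A.erase a).image π → Simple F A' → Cov F (2 * K + 1) A') →
    Cov F (2 * K + 1) A

/-- COV [80] (hypotheses MAP, TOP, SHZ, LIF): strong induction on `rk A`. `A = ∅` trivial. The bound
`|A'| ≤ (2K+1) rk A'` for smaller rank follows from the cover (every independent subset has at most `rk A'`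
elements). SHZ gives `Sh`, TOP gives `a`, `π : V → V / span a`, `rk (π (A.erase a)) < rk A`, LIF. -/
def SpecCOV : Prop :=
  ∀ (F : Type) [Field F] [Fintype F] (k d : ℕ), Nu (Fintype.card F) k d →
  ∀ (V : Type) [AddCommGroup V] [Module F V] [Module.Finite F V] (A : Finset V),
    Simple F A → ¬ HasK F (k + 3) A →
    Cov F (2 * (Fintype.card F * NN (Fintype.card F) k d) + 1) A

/-- COL [50] (hypothesis MAP, COV): the functionals. `A ⊆ E` maximal simple; every element of `E` is a
multiple of an element of `A`; for each colour a functional with value 1 on the colour class. -/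
def SpecCOL : Prop :=
  ∀ (F : Type) [Field F] [Fintype F] (k d : ℕ), Nu (Fintype.card F) k d →
  ∀ (V : Type) [AddCommGroup V] [Module F V] [Module.Finite F V] (E : Finset V),
    ¬ HasK F (k + 3) E → (0 : V) ∉ E →
    ∃ f : Fin (2 * (Fintype.card F * NN (Fintype.card F) k d) + 1) → Module.Dual F V,
      ∀ x ∈ E, ∃ i, f i x ≠ 0

/-- NUM [120]: numbers. With `y = 4 m L = d + 1`, `L = Nat.log 2 (q m) + 1` (so `q m < 2 ^ L`, `L ≥ 3`).
(a) `q NN q k d + 1 ≤ (q^2 (d+1))^k` by the recursion:
`q NN(k+1,d+1) + 1 ≤ (q^2(d+1))^(k+1) + q^2 (q^2 (d+2))^k ≤ (q^2 (d+2))^(k+1)`.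
(b) `1 + (q-1) (2 (y q^2)^(m-3) - 1) y ≤ 2 q y^(m-2) q^(2m-6) = 2 y^(m-2) q^(2m-5)`;
`q^(2m-5) m^(2m-5) < 2^(L(2m-5))`, `y^(m-2) = (4L)^(m-2) m^(m-2) ≤ 2^((L+1)(m-2)) m^(2m-5)` (`4 L ≤ 2^(L+1)`,
`m - 2 ≤ 2m - 5`), so the product is at most `2^(1 + (L+1)(m-2) + L(2m-5)) = 2^(L(3m-7) + m - 1) < 2^(4 m L)`. -/
def SpecNUM : Prop :=
  ∀ q m : ℕ, 2 ≤ q → 3 ≤ m →
    Nu q (m - 3) (4 * m * (Nat.log 2 (q * m) + 1) - 1) ∧
    2 * (q * NN q (m - 3) (4 * m * (Nat.log 2 (q * m) + 1) - 1)) + 1 ≤
      2 * (4 * m * (Nat.log 2 (q * m) + 1) * q ^ 2) ^ (m - 3) - 1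

/-- FRO [120]: translation to the form of the frozen statement. Copy of specFroz
(Lib/MP_ed7341_co/Froz.lean, case m = 4) with `w : Fin m → V` of `HasK`: `g e = c_e (w_i - w_j)` modulo
`span C` for the edge `e = (i,j)`; the map `x ↦ (Σ x_i w_i mod span C, Σ x_i)` is injective on `F^m`
(this is exactly the independence clause of `HasK`). -/
def SpecFRO : Prop :=
  ∀ (F : Type) [Field F] (m r : ℕ) (S : Finset (Fin r → F)),
    (¬ ∃ (C : Finset (Fin r → F)) (g : {p : Fin m × Fin m // p.1 < p.2} → (Fin r → F)),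
      C ⊆ S ∧ (∀ e, g e ∈ S) ∧
      ∀ T : Set {p : Fin m × Fin m // p.1 < p.2},
        (LinearIndependent F (T.restrict
            (fun e => (Submodule.span F (C : Set (Fin r → F))).mkQ (g e))) ↔
         LinearIndependent F (T.restrict
            (fun e => ((Pi.single e.1.1 (1 : F) : Fin m → F) -
              (Pi.single e.1.2 (1 : F) : Fin m → F)))))) →
    ¬ HasK F m S

end MPed7341.KM
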